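import Pool.Agent.K4H1.EXT.P2c

/-! Dirichlet's class number formula for `ℚ(√-n)`, `n ≡ 3 (mod 4)` squarefree. -/

set_option autoImplicit false

namespace Pool.Agent.K4H1.EXT

open Complex Finset Pool.Agent.H916R2 DirichletCharacter NumberField Module
open Pool.Agent.H379R2.W Pool.Agent.R343.CFP H300.HW IsCyclotomicExtension.Rat
open Pool.Agent.R441.CN

/-- the Gauss sum of the Jacobi symbol in a field -/
noncomputable def gsj {L : Type*} [Field L] (n : ℕ) [NeZero n] (η : L) : L :=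
  ∑ a : ZMod n, ((jacobiSym (a.val : ℤ) n : ℤ) : L) * η ^ a.val

lemma jac_mul {n : ℕ} [NeZero n] (a b : ZMod n) :
    jacobiSym ((a * b).val : ℤ) n = jacobiSym (a.val : ℤ) n * jacobiSym (b.val : ℤ) n := by
  rw [ZMod.val_mul]
  push_cast
  rw [← jacobiSym.mod_left, jacobiSym.mul_left]

lemma jac_sq {n : ℕ} [NeZero n] (u : (ZMod n)ˣ) :
    jacobiSym ((u : ZMod n).val : ℤ) n * jacobiSym ((u : ZMod n).val : ℤ) n = 1 := by
  have h : jacobiSym ((u : ZMod n).val : ℤ) n ≠ 0 := by
    rw [Ne, jacobiSym.eq_zero_iff_not_coprime, not_not, Int.gcd_natCast_natCast]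
    exact ZMod.val_coe_unit_coprime u
  rcases jacobiSym.trichotomy ((u : ZMod n).val : ℤ) n with h1 | h1 | h1
  · exact absurd h1 h
  · rw [h1]; norm_num
  · rw [h1]; norm_num

lemma gsj_map {L : Type*} [Field L] {n : ℕ} [NeZero n] {η : L} (hη : η ^ n = 1) (σ : L →+* L)
    (u : (ZMod n)ˣ) (hσ : σ η = η ^ (u : ZMod n).val) :
    σ (gsj n η) = ((jacobiSym ((u : ZMod n).val : ℤ) n : ℤ) : L) * gsj n η := by
  have key : ∀ a : ZMod n, σ (((jacobiSym (a.val : ℤ) n : ℤ) : L) * η ^ a.val) =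
      ((jacobiSym ((u : ZMod n).val : ℤ) n : ℤ) : L) *
        (((jacobiSym (((u : ZMod n) * a).val : ℤ) n : ℤ) : L) * η ^ ((u : ZMod n) * a).val) := by
    intro a
    rw [map_mul, map_intCast, map_pow, hσ, jac_mul, ← pow_mul]
    have h1 : η ^ ((u : ZMod n) * a).val = η ^ ((u : ZMod n).val * a.val) := by
      rw [ZMod.val_mul, ← pow_eq_pow_mod _ hη]
    rw [h1]
    have h2 : (((jacobiSym ((u : ZMod n).val : ℤ) n : ℤ) : L)) *
        ((jacobiSym ((u : ZMod n).val : ℤ) n : ℤ) : L) = 1 := by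
      exact_mod_cast congrArg (Int.cast : ℤ → L) (jac_sq u)
    push_cast
    linear_combination (-((jacobiSym (a.val : ℤ) n : ℤ) : L) * η ^ ((u : ZMod n).val * a.val)) * h2
  unfold gsj
  rw [map_sum, sum_congr rfl fun a _ => key a, ← mul_sum]
  congr 1
  exact Fintype.sum_equiv (Units.mulLeft u) _ _ (fun a => rfl)

lemma gsj_sq {L : Type*} [Field L] [NumberField L] {n : ℕ} [NeZero n] (h4 : n % 4 = 3)
    (hs : Squarefree n) {η : L} (hη : IsPrimitiveRoot η n) : (gsj n η) ^ 2 = -(n : L) := by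
  obtain ⟨φ⟩ : Nonempty (L →+* ℂ) := inferInstance
  have hn : n ≠ 0 := NeZero.ne n
  have h1 : IsPrimitiveRoot (φ η) n := hη.map_of_injective φ.injective
  have h2 : IsPrimitiveRoot (Complex.exp (-(2 * Real.pi * Complex.I / n))) n := by
    rw [Complex.exp_neg]
    exact (Complex.isPrimitiveRoot_exp n hn).inv
  obtain ⟨k, _, hk, hk2⟩ := (h2.isPrimitiveRoot_iff).1 h1
  have h3 : φ (gsj n η) = -Complex.I * Real.sqrt n * ((jacobiSym (k : ℤ) n : ℤ) : ℂ) := by
    rw [← gauss_sum n k h4 hs]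
    unfold gsj
    rw [map_sum]
    apply Finset.sum_nbij' (fun x : ZMod n => x.val) (fun i : ℕ => (i : ZMod n))
    · intro x _
      exact mem_range.2 (ZMod.val_lt x)
    · intro i _
      exact mem_univ _
    · intro x _
      exact ZMod.natCast_zmod_val x
    · intro i hi
      exact ZMod.val_natCast_of_lt (mem_range.1 hi)
    · intro x _
      rw [map_mul, map_intCast, map_pow, ← hk2, ← pow_mul, ← Complex.exp_nat_mul]
      congr 2
      push_cast
      ring
  have hj : ((jacobiSym (k : ℤ) n : ℤ) : ℂ) ^ 2 = 1 := by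
    have h : jacobiSym (k : ℤ) n ≠ 0 := by
      rw [Ne, jacobiSym.eq_zero_iff_not_coprime, not_not, Int.gcd_natCast_natCast]
      exact hk
    rcases jacobiSym.trichotomy (k : ℤ) n with h1 | h1 | h1
    · exact absurd h1 h
    · rw [h1]; norm_num
    · rw [h1]; norm_num
  apply φ.injective
  rw [map_pow, h3, map_neg, map_natCast, mul_pow, mul_pow, hj, neg_sq, Complex.I_sq]
  have h5 : ((Real.sqrt n : ℝ) : ℂ) ^ 2 = n := by
    rw [← Complex.ofReal_pow, Real.sq_sqrt (Nat.cast_nonneg n)]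
    simp
  rw [h5]
  ring

lemma jchar_prim' {n : ℕ} [NeZero n] (h4 : n % 4 = 3) (hs : Squarefree n) :
    (jchar n).IsPrimitive := by
  by_contra hcon
  have hd := (jchar n).conductor_dvd_level
  set d := (jchar n).conductor with hdd
  have hdn : d ≠ n := fun h => hcon h
  obtain ⟨e, he⟩ := hd
  have hn0 : n ≠ 0 := NeZero.ne n
  have he1 : e ≠ 1 := by
    rintro rfl
    rw [mul_one] at he
    exact hdn he.symm
  obtain ⟨p, hp, hpe⟩ := Nat.exists_prime_and_dvd he1
  obtain ⟨f, hf⟩ := hpe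
  have hpn : n = p * (d * f) := by rw [he, hf]; ring
  have hF := Fact.mk hp
  have hp2 : p ≠ 2 := by
    rintro rfl
    omega
  have hndvd : ¬ p ∣ d * f := by
    intro h
    have h2 : p * p ∣ n := by rw [hpn]; exact Nat.mul_dvd_mul_left p h
    exact hp.one_lt.ne' (Nat.isUnit_iff.mp (hs p h2))
  have hco : Nat.Coprime p (d * f) := (Nat.Prime.coprime_iff_not_dvd hp).mpr hndvd
  obtain ⟨c, hc⟩ : ∃ c : ZMod p, quadraticChar (ZMod p) c = -1 := by
    apply quadraticChar_exists_neg_one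
    rw [ZMod.ringChar_zmod_n]
    exact hp2
  obtain ⟨a, ha1, ha2⟩ := Nat.chineseRemainder hco c.val 1
  have hap : (a : ZMod p) = c := by
    rw [← ZMod.natCast_zmod_val c]
    exact (ZMod.natCast_eq_natCast_iff a c.val p).2 ha1
  have h5 : jacobiSym (a : ℤ) p = -1 := by
    rw [← jacobiSym.legendreSym.to_jacobiSym, legendreSym]
    push_cast
    rw [hap, hc]
  have h6 : jacobiSym (a : ℤ) (d * f) = 1 := by
    rw [jacobiSym.mod_left]
    have : (a : ℤ) % ((d * f : ℕ) : ℤ) = 1 % ((d * f : ℕ) : ℤ) := by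
      exact_mod_cast ha2
    rw [this, ← jacobiSym.mod_left, jacobiSym.one_left]
  have hdf0 : d * f ≠ 0 := by
    intro h
    rw [h, mul_zero] at hpn
    exact hn0 hpn
  have : NeZero p := ⟨hp.ne_zero⟩
  have : NeZero (d * f) := ⟨hdf0⟩
  have h7 : jacobiSym (a : ℤ) n = -1 := by
    rw [hpn, jacobiSym.mul_right, h5, h6]
    norm_num
  have hcop : IsCoprime (a : ℤ) (n : ℤ) := by
    rw [Nat.isCoprime_iff_coprime]
    by_contra hc'
    have : jacobiSym (a : ℤ) n = 0 := by
      rw [jacobiSym.eq_zero_iff_not_coprime, Int.gcd_natCast_natCast]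
      exact hc'
    rw [this] at h7
    norm_num at h7
  have h8 := (jchar n).primitiveCharacter_apply_of_isCoprime hcop
  push_cast at h8
  rw [jchar_apply, h7] at h8
  have h9 : ((a : ℕ) : ZMod (jchar n).conductor) = 1 := by
    have h10 : a ≡ 1 [MOD d] := ha2.of_mul_right f
    have := (ZMod.natCast_eq_natCast_iff a 1 d).2 h10
    simpa using this
  rw [h9, map_one] at h8
  norm_num at h8

lemma saw_sum' {n : ℕ} [NeZero n] (h4 : n % 4 = 3) :
    ∑ j : ZMod n, jchar n j * (saw j : ℂ) = ((2 * T n : ℤ) : ℂ) := by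
  have e1 : ∑ j : ZMod n, jchar n j * (saw j : ℂ) =
      ∑ r ∈ range n, (((2 * (r : ℤ) - n) * jacobiSym (r : ℤ) n : ℤ) : ℂ) := by
    apply Finset.sum_nbij' (fun x : ZMod n => x.val) (fun i : ℕ => (i : ZMod n))
    · intro x _
      exact mem_range.2 (ZMod.val_lt x)
    · intro i _
      exact mem_univ _
    · intro x _
      exact ZMod.natCast_zmod_val x
    · intro i hi
      exact ZMod.val_natCast_of_lt (mem_range.1 hi)
    · intro x _
      have h4 : jchar n x = ((jacobiSym (x.val : ℤ) n : ℤ) : ℂ) := rfl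
      rw [h4]
      unfold saw
      split_ifs with hx
      · rw [hx, ZMod.val_zero]
        have : jacobiSym ((0 : ℕ) : ℤ) n = 0 := by
          rw [Nat.cast_zero]
          exact jacobiSym.zero_left (by omega)
        rw [this]
        simp
      · push_cast
        ring
  rw [e1, ← Int.cast_sum]
  congr 1
  have e2 : ∀ r ∈ range n, (2 * (r : ℤ) - n) * jacobiSym (r : ℤ) n =
      2 * ((r : ℤ) * jacobiSym (r : ℤ) n) - n * jacobiSym (r : ℤ) n := by
    intro r _
    ring
  rw [Finset.sum_congr rfl e2, Finset.sum_sub_distrib, ← Finset.mul_sum, ← Finset.mul_sum,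
    sum_jacobi_zero n h4, mul_zero, sub_zero]
  rfl

theorem classNumber_aux {n : ℕ} [NeZero n] (L : Type) [Field L] [NumberField L]
    [IsCyclotomicExtension {n} ℚ L] (hs : Squarefree n) (h5 : 5 ≤ n) (h4 : n % 4 = 3)
    (K : Type) [Field K] [NumberField K] (h2 : finrank ℚ K = 2) (β : K)
    (hβ : β ^ 2 = -(n : K)) : (n : ℤ) * classNumber K = - T n := by
  have hη := IsCyclotomicExtension.zeta_spec n ℚ L
  set η := IsCyclotomicExtension.zeta n ℚ L with hηd
  have hα := gsj_sq (L := L) h4 hs hη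
  have hn0 : 0 < n := by omega
  have hχ : ∀ σ : Gal(L/ℚ), σ (gsj n η) = gsj n η →
      jchar n (galEquivZMod n L σ : ZMod n) = 1 := by
    intro σ hσ
    have h6 : σ η = η ^ (galEquivZMod n L σ).val.val :=
      galEquivZMod_apply_of_pow_eq n L σ hη.pow_eq_one
    have h7 := gsj_map hη.pow_eq_one (σ : L →+* L) (galEquivZMod n L σ) h6
    have h8 : (σ : L →+* L) (gsj n η) = gsj n η := hσ
    rw [h8] at h7
    have hg0 : gsj n η ≠ 0 := by
      intro h0
      rw [h0] at hα
      have : (n : L) = 0 := by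
        have h9 : (0 : L) = -(n : L) := by rw [← hα]; ring
        linear_combination h9
      exact hn0.ne' (by exact_mod_cast this)
    have h9 : ((jacobiSym (((galEquivZMod n L σ : (ZMod n)ˣ) : ZMod n).val : ℤ) n : ℤ) : L) = 1 := by
      apply mul_right_cancel₀ hg0
      rw [← h7, one_mul]
    have h10 : jacobiSym (((galEquivZMod n L σ : (ZMod n)ˣ) : ZMod n).val : ℤ) n = 1 := by
      exact_mod_cast h9
    have h11 : jchar n (galEquivZMod n L σ : ZMod n) =
      ((jacobiSym (((galEquivZMod n L σ : (ZMod n)ˣ) : ZMod n).val : ℤ) n : ℤ) : ℂ) := rfl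
    rw [h11, h10]
    simp
  have hL1 := classNumber_L' n L hn0 hs h5 (gsj n η) hα (jchar n) (jchar_prim' h4 hs)
    (jchar_ne_one n h4) hχ K h2 β hβ
  have h12 := L_one n h4 hs
  rw [← hL1, saw_sum' h4, discr_three' h2 hn0 hs hβ h4] at h12
  have hpi := Real.pi_pos
  have hp0 : (0 : ℝ) < n := by exact_mod_cast hn0
  have hsp : 0 < Real.sqrt n := Real.sqrt_pos.2 hp0
  have e1 : |(((-(n : ℤ)) : ℤ) : ℝ)| = n := by
    push_cast; rw [abs_neg, abs_of_nonneg hp0.le]
  rw [e1] at h12
  have h13 : ((2 * T n : ℤ) : ℝ) = -(2 * n * Real.sqrt n / Real.pi) *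
      (Real.pi * classNumber K / Real.sqrt n) := by
    exact_mod_cast h12
  have h14 : -(2 * n * Real.sqrt n / Real.pi) * (Real.pi * classNumber K / Real.sqrt n) =
      -(2 * ((n : ℝ) * classNumber K)) := by
    field_simp
  rw [h14] at h13
  have h15 : ((n : ℝ) * classNumber K) = -(T n : ℝ) := by
    push_cast at h13
    linarith
  exact_mod_cast h15

/-- Dirichlet's class number formula for `ℚ(√-n)`, `n ≡ 3 (mod 4)` squarefree, `n > 3`. -/
theorem class_number_formula (n : ℕ) (hs : Squarefree n) (h4 : n % 4 = 3) (h3 : 3 < n)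
    (K : Type) [Field K] [NumberField K] (h2 : finrank ℚ K = 2) (x : K)
    (hx : x ^ 2 = -(n : K)) :
    ∑ u ∈ range n, (jacobiSym (u : ℤ) n : ℤ) * (u : ℤ) =
      -(n : ℤ) * Fintype.card (ClassGroup (𝓞 K)) := by
  have : NeZero n := ⟨by omega⟩
  obtain ⟨L, _, _, _⟩ := exists_cyc n
  have h := classNumber_aux L hs (by omega) h4 K h2 x hx
  have e : ∑ u ∈ range n, (jacobiSym (u : ℤ) n : ℤ) * (u : ℤ) = T n :=
    sum_congr rfl fun u _ => mul_comm _ _
  have h5 : (Fintype.card (ClassGroup (𝓞 K)) : ℤ) = (classNumber K : ℤ) := rfl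
  rw [e, h5]
  linarith

end Pool.Agent.K4H1.EXT
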