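import Pool.Agent.K4H1.EXT.S6

/-! Quadratic fields: coordinates, norm, embeddings. -/

set_option autoImplicit false
set_option linter.unusedSectionVars false

open NumberField Module Polynomial

namespace Pool.Agent.K4H1.EXT.S

section
variable {K : Type*} [Field K] [NumberField K] {D : ℚ} {y : K}

lemma q_not_rat (hD : ∀ q : ℚ, q ^ 2 ≠ D) (hy : y ^ 2 = algebraMap ℚ K D) (q : ℚ) : (algebraMap ℚ K q) ≠ y := by
  intro h
  rw [← h, ← map_pow] at hy
  exact hD q ((algebraMap ℚ K).injective hy)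

lemma q_linInd (hD : ∀ q : ℚ, q ^ 2 ≠ D) (hy : y ^ 2 = algebraMap ℚ K D) : LinearIndependent ℚ ![(1 : K), y] := by
  rw [LinearIndependent.pair_iff]
  intro s t h
  have ht : t = 0 := by
    by_contra ht
    apply q_not_rat hD hy (-(s / t))
    have h1 : algebraMap ℚ K s + algebraMap ℚ K t * y = 0 := by
      rw [Algebra.smul_def, Algebra.smul_def, mul_one] at h
      exact h
    have h2 : algebraMap ℚ K t ≠ 0 := by
      simpa using ht
    rw [map_neg, map_div₀]
    field_simp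
    linear_combination -h1
  subst ht
  refine ⟨?_, rfl⟩
  simpa using h

noncomputable def qbas (h2 : finrank ℚ K = 2) (hD : ∀ q : ℚ, q ^ 2 ≠ D) (hy : y ^ 2 = algebraMap ℚ K D) :
    Basis (Fin 2) ℚ K :=
  basisOfLinearIndependentOfCardEqFinrank (q_linInd hD hy) (by simp [h2])

lemma qbas_zero (h2 : finrank ℚ K = 2) (hD : ∀ q : ℚ, q ^ 2 ≠ D) (hy : y ^ 2 = algebraMap ℚ K D) :
    qbas h2 hD hy 0 = 1 := by simp [qbas]

lemma qbas_one (h2 : finrank ℚ K = 2) (hD : ∀ q : ℚ, q ^ 2 ≠ D) (hy : y ^ 2 = algebraMap ℚ K D) :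
    qbas h2 hD hy 1 = y := by simp [qbas]

lemma q_coord (h2 : finrank ℚ K = 2) (hD : ∀ q : ℚ, q ^ 2 ≠ D) (hy : y ^ 2 = algebraMap ℚ K D) (x : K) :
    ∃ a b : ℚ, x = algebraMap ℚ K a + algebraMap ℚ K b * y := by
  have h := (qbas h2 hD hy).sum_repr x
  rw [Fin.sum_univ_two, qbas_zero, qbas_one, Algebra.smul_def, Algebra.smul_def, mul_one] at h
  exact ⟨_, _, h.symm⟩

lemma q_repr_eq (h2 : finrank ℚ K = 2) (hD : ∀ q : ℚ, q ^ 2 ≠ D) (hy : y ^ 2 = algebraMap ℚ K D) (a b : ℚ) :
    (qbas h2 hD hy).repr (algebraMap ℚ K a + algebraMap ℚ K b * y) = Finsupp.single 0 a +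
      Finsupp.single 1 b := by
  have : algebraMap ℚ K a + algebraMap ℚ K b * y = a • qbas h2 hD hy 0 + b • qbas h2 hD hy 1 := by
    rw [qbas_zero, qbas_one, Algebra.smul_def, Algebra.smul_def, mul_one]
  rw [this, map_add, map_smul, map_smul, Basis.repr_self, Basis.repr_self]
  simp

lemma q_mulMat (h2 : finrank ℚ K = 2) (hD : ∀ q : ℚ, q ^ 2 ≠ D) (hy : y ^ 2 = algebraMap ℚ K D) (a b : ℚ) :
    Algebra.leftMulMatrix (qbas h2 hD hy) (algebraMap ℚ K a + algebraMap ℚ K b * y) =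
      !![a, D * b; b, a] := by
  ext i j
  rw [Algebra.leftMulMatrix_eq_repr_mul]
  fin_cases j
  · have e : (algebraMap ℚ K a + algebraMap ℚ K b * y) * qbas h2 hD hy 0 =
        algebraMap ℚ K a + algebraMap ℚ K b * y := by rw [qbas_zero, mul_one]
    show ((qbas h2 hD hy).repr ((algebraMap ℚ K a + algebraMap ℚ K b * y) * qbas h2 hD hy 0)) i = _
    rw [e, q_repr_eq]
    fin_cases i <;> simp
  · have e : (algebraMap ℚ K a + algebraMap ℚ K b * y) * qbas h2 hD hy 1 =
        algebraMap ℚ K (D * b) + algebraMap ℚ K a * y := by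
      rw [qbas_one, map_mul, ← hy]
      ring
    show ((qbas h2 hD hy).repr ((algebraMap ℚ K a + algebraMap ℚ K b * y) * qbas h2 hD hy 1)) i = _
    rw [e, q_repr_eq]
    fin_cases i <;> simp

lemma q_norm (h2 : finrank ℚ K = 2) (hD : ∀ q : ℚ, q ^ 2 ≠ D) (hy : y ^ 2 = algebraMap ℚ K D) (a b : ℚ) :
    Algebra.norm ℚ (algebraMap ℚ K a + algebraMap ℚ K b * y) = a ^ 2 - D * b ^ 2 := by
  rw [Algebra.norm_eq_matrix_det (qbas h2 hD hy), q_mulMat]
  simp [Matrix.det_fin_two]
  ring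

lemma q_hom {W : Type*} [Field W] [CharZero W] (h2 : finrank ℚ K = 2) (hD : ∀ q : ℚ, q ^ 2 ≠ D)
    (hy : y ^ 2 = algebraMap ℚ K D) {r : W} (hr : r ^ 2 = algebraMap ℚ W D) :
    ∃ φ : K →+* W, φ y = r := by
  have hirr : Irreducible (X ^ 2 - C D : ℚ[X]) := X_pow_sub_C_irreducible_of_prime Nat.prime_two hD
  have hmin : minpoly ℚ y = X ^ 2 - C D := by
    symm
    apply minpoly.eq_of_irreducible_of_monic hirr
    · simp [hy]
    · exact monic_X_pow_sub_C D two_ne_zero
  have hint : IsIntegral ℚ y := IsIntegral.of_finite ℚ y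
  have htop : Algebra.adjoin ℚ {y} = ⊤ := by
    have h1 : IntermediateField.adjoin ℚ {y} = ⊤ := by
      rw [Field.primitive_element_iff_minpoly_natDegree_eq, hmin, h2]
      exact natDegree_X_pow_sub_C
    have h3 := IntermediateField.adjoin_simple_toSubalgebra_of_isAlgebraic hint.isAlgebraic
    rw [← h3, h1, IntermediateField.top_toSubalgebra]
  let pb := PowerBasis.ofAdjoinEqTop' hint htop
  have hgen : pb.gen = y := PowerBasis.ofAdjoinEqTop'_gen hint htop
  have hroot : aeval r (minpoly ℚ pb.gen) = 0 := by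
    rw [hgen, hmin]
    simp [hr]
  refine ⟨(pb.lift r hroot : K →ₐ[ℚ] W), ?_⟩
  exact (congrArg _ hgen.symm).trans (pb.lift_gen r hroot)

end

lemma exists_split0 (F : Type) [Field F] (P : F[X]) :
    ∃ (W : Type) (_ : Field W) (_ : Algebra F W), Polynomial.IsSplittingField F W P :=
  ⟨P.SplittingField, inferInstance, inferInstance, inferInstance⟩

lemma exists_split (P : ℚ[X]) : ∃ (W : Type) (_ : Field W) (_ : NumberField W),
    Polynomial.IsSplittingField ℚ W P := by
  obtain ⟨W, _, i, hs⟩ := exists_split0 ℚ P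
  have hf : FiniteDimensional ℚ W := IsSplittingField.finiteDimensional W P
  have hc : CharZero W := charZero_of_injective_algebraMap (algebraMap ℚ W).injective
  have hi : i = DivisionRing.toRatAlgebra := Subsingleton.elim _ _
  subst hi
  have : NumberField W := { to_charZero := hc, to_finiteDimensional := hf }
  exact ⟨W, inferInstance, inferInstance, hs⟩

/-- **Scholz reflection and Hilbert 94.** -/
theorem _root_.Pool.Agent.K4H1.EXT.scholz (n : ℕ) (hn : Squarefree n) (h7 : n % 8 = 7) (h3 : ¬ 3 ∣ n)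
    (L : Type) [Field L] [NumberField L] (hL : finrank ℚ L = 2) (x : L) (hx : x ^ 2 = -(n : L))
    (L' : Type) [Field L'] [NumberField L'] (hL' : finrank ℚ L' = 2) (y : L') (hy : y ^ 2 = 3 * (n : L'))
    (b : L') (hb : b ≠ 0) (hnc : ¬ ∃ c, b = c ^ 3) (hN : ∃ q : ℚ, Algebra.norm ℚ b = q ^ 3)
    (hv : ∀ v : IsDedekindDomain.HeightOneSpectrum (𝓞 L'), ∃ g : WithZero (Multiplicative ℤ),
      v.valuation L' b = g ^ 3)
    (hp : ∀ v : IsDedekindDomain.HeightOneSpectrum (𝓞 L'), (3 : 𝓞 L') ∈ v.asIdeal →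
      ∃ c : L', (v.valuation L' (b * c ^ 3 - 1)) ^ 2 ≤ (v.valuation L' 3) ^ 3) :
    3 ∣ Fintype.card (ClassGroup (𝓞 L)) := by
  have hn0 : 0 < n := by omega
  -- 3n is not a rational square
  have hsq3 : Squarefree (3 * n) := by
    rw [Nat.squarefree_mul ((Nat.Prime.coprime_iff_not_dvd (by norm_num)).2 h3)]
    exact ⟨(Nat.prime_three).squarefree, hn⟩
  have hD : ∀ q : ℚ, q ^ 2 ≠ (3 * n : ℚ) := by
    intro q hq
    have h1 : ((3 * n : ℕ) : ℚ) * (q / (3 * n)) ^ 2 = ((1 : ℤ) : ℚ) := by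
      have : (n : ℚ) ≠ 0 := by exact_mod_cast hn0.ne'
      push_cast
      field_simp
      linear_combination hq
    obtain ⟨m, hm⟩ := int_of_sq' hsq3 _ 1 h1
    rw [hm] at h1
    have h2 : ((3 * n : ℕ) : ℤ) * m ^ 2 = 1 := by exact_mod_cast h1
    have h4 : ((3 * n : ℕ) : ℤ) ∣ 1 := Dvd.intro _ h2
    have h5 := Int.le_of_dvd (by norm_num) h4
    push_cast at h5
    omega
  have hDn : ∀ q : ℚ, q ^ 2 ≠ (-(n : ℚ)) := by
    intro q hq
    have : (0 : ℚ) < n := by exact_mod_cast hn0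
    nlinarith [sq_nonneg q]
  have hy' : y ^ 2 = algebraMap ℚ L' (3 * n : ℚ) := by rw [hy]; simp
  have hx' : x ^ 2 = algebraMap ℚ L (-(n : ℚ)) := by rw [hx]; simp
  obtain ⟨b0, b1, hb01⟩ := q_coord hL' hD hy' b
  obtain ⟨q, hq⟩ := hN
  rw [hb01, q_norm hL' hD hy'] at hq
  -- the splitting field
  let P : ℚ[X] := (X ^ 2 + C (n : ℚ)) * ((X ^ 2 + X + 1) * (X ^ 6 - C (2 * b0) * X ^ 3 + C (q ^ 3)))
  have hP : P ≠ 0 := by
    refine mul_ne_zero ?_ (mul_ne_zero ?_ ?_)
    · intro h0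
      have := congrArg (fun f => coeff f 2) h0
      simp [coeff_X_pow] at this
    · intro h0
      have := congrArg (fun f => coeff f 0) h0
      simp at this
    · intro h0
      have := congrArg (fun f => coeff f 6) h0
      simp only [coeff_add, coeff_sub, coeff_C_mul, coeff_X_pow, coeff_C, coeff_zero] at this
      norm_num at this
  obtain ⟨W, _, _, hs⟩ := exists_split P
  have hgal : IsGalois ℚ W :=
    { to_normal := Normal.of_isSplittingField P }
  have hsp : (P.map (algebraMap ℚ W)).Splits := hs.splits'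
  have hPW : P.map (algebraMap ℚ W) ≠ 0 := (Polynomial.map_ne_zero_iff (algebraMap ℚ W).injective).2 hP
  have hPm : P.map (algebraMap ℚ W) = (X ^ 2 + C (n : W)) * ((X ^ 2 + X + 1) *
      (X ^ 6 - C (2 * algebraMap ℚ W b0) * X ^ 3 + C ((algebraMap ℚ W q) ^ 3))) := by
    simp [P, Polynomial.map_mul, Polynomial.map_add, Polynomial.map_sub, Polynomial.map_pow]
  have hroot : ∀ f : W[X], f ∣ P.map (algebraMap ℚ W) → degree f ≠ 0 → ∃ a, eval a f = 0 :=
    fun f hf hd => (hsp.of_dvd hPW hf).exists_eval_eq_zero hd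
  obtain ⟨x0, hx0⟩ := hroot (X ^ 2 + C (n : W)) (by rw [hPm]; exact Dvd.intro _ rfl) (by
    rw [degree_X_pow_add_C (by norm_num)]; norm_num)
  obtain ⟨ω, hω⟩ := hroot (X ^ 2 + X + 1)
    (by rw [hPm]; exact dvd_mul_of_dvd_right (Dvd.intro _ rfl) _) (by
    have : (X ^ 2 + X + 1 : W[X]).degree = 2 := by compute_degree!
    rw [this]; norm_num)
  simp only [eval_add, eval_pow, eval_X, eval_C, eval_one] at hx0 hω
  have hx02 : x0 ^ 2 = algebraMap ℚ W (-(n : ℚ)) := by
    rw [map_neg, map_natCast]; linear_combination hx0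
  have hr2 : ((2 * ω + 1) * x0) ^ 2 = algebraMap ℚ W (3 * n) := by
    rw [map_mul, map_natCast, map_ofNat]
    linear_combination (4 * ω ^ 2 + 4 * ω + 1) * hx0 - 4 * n * hω
  obtain ⟨φ, hφ⟩ := q_hom hL hDn hx' hx02
  obtain ⟨φ', hφ'⟩ := q_hom hL' hD hy' hr2
  have hφ'Q : ∀ p : ℚ, φ' (algebraMap ℚ L' p) = algebraMap ℚ W p := fun p => by
    rw [eq_ratCast, map_ratCast, eq_ratCast]
  set B := φ' b with hB
  have hBe : B = algebraMap ℚ W b0 + algebraMap ℚ W b1 * ((2 * ω + 1) * x0) := by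
    rw [hB, hb01, map_add, map_mul, hφ'Q, hφ'Q, hφ']
  set B' := algebraMap ℚ W b0 - algebraMap ℚ W b1 * ((2 * ω + 1) * x0) with hB'
  have hBB : B * B' = algebraMap ℚ W q ^ 3 := by
    rw [hBe, hB']
    have h1 := congrArg (algebraMap ℚ W) hq
    have h2 : ((2 * ω + 1) * x0) ^ 2 = 3 * (n : W) := by rw [hr2]; simp
    simp only [map_sub, map_mul, map_pow, map_natCast, map_ofNat] at h1
    linear_combination h1 - (algebraMap ℚ W b1) ^ 2 * h2
  have hfac : X ^ 6 - C (2 * algebraMap ℚ W b0) * X ^ 3 + C ((algebraMap ℚ W q) ^ 3) =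
      (X ^ 3 - C B) * (X ^ 3 - C B') := by
    rw [← hBB]
    have : 2 * algebraMap ℚ W b0 = B + B' := by rw [hBe, hB']; ring
    rw [this, C_mul, C_add]
    ring
  obtain ⟨α, hα⟩ := hroot (X ^ 3 - C B) (by
    rw [hPm, hfac]
    exact dvd_mul_of_dvd_right (dvd_mul_of_dvd_right (Dvd.intro _ rfl) _) _) (by
    rw [degree_X_pow_sub_C (by norm_num)]; norm_num)
  simp only [eval_sub, eval_pow, eval_X, eval_C] at hα
  have hα3 : α ^ 3 = B := sub_eq_zero.1 hα
  letI : Algebra L W := φ.toAlgebra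
  letI : Algebra L' W := φ'.toAlgebra
  have ex : algebraMap L W x = x0 := hφ
  have ey : algebraMap L' W y = (2 * ω + 1) * x0 := hφ'
  have hB0 : B ≠ 0 := by rw [hB, Ne, map_eq_zero]; exact hb
  have hα0 : α ≠ 0 := by rintro rfl; rw [zero_pow (by norm_num)] at hα3; exact hB0 hα3.symm
  refine scholz_aux (L := L) (L' := L') (W := W) (ω := ω) (α := α) hn (by omega) h3 hL hx
    (q_coord hL' hD hy') hb hnc hb01 hq hv hp hω (by rw [ey, ex]) hα3 ?_
  intro σ h1 h2 h4
  rw [ex] at h1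
  have htop := IsSplittingField.adjoin_rootSet W P
  have hfixcube : ∀ k : W, k ^ 3 = 1 → σ k = k := by
    intro k hk
    rcases cube_one hω hk with h | h | h
    · rw [h, map_one]
    · rw [h, h2]
    · rw [h, map_pow, h2]
  have key : (σ : W →ₐ[ℚ] W) = AlgHom.id ℚ W := by
    apply AlgHom.ext_of_adjoin_eq_top htop
    intro z hz
    show σ z = z
    rw [mem_rootSet] at hz
    have hz2 := hz.2
    rw [aeval_def, ← eval_map, hPm, hfac, eval_mul, eval_mul, eval_mul] at hz2
    simp only [eval_add, eval_sub, eval_pow, eval_X, eval_C, eval_one] at hz2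
    rcases mul_eq_zero.1 hz2 with h | h
    · have : (z - x0) * (z + x0) = 0 := by linear_combination h - hx0
      rcases mul_eq_zero.1 this with h | h
      · rw [sub_eq_zero.1 h, h1]
      · rw [eq_neg_of_add_eq_zero_left h, map_neg, h1]
    · rcases mul_eq_zero.1 h with h | h
      · rcases omega_conj hω h with h | h
        · rw [h, h2]
        · rw [h, map_pow, h2]
      · rcases mul_eq_zero.1 h with h | h
        · have h5 : (z / α) ^ 3 = 1 := by
            rw [div_pow, hα3, sub_eq_zero.1 h, div_self hB0]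
          have h6 : z = (z / α) * α := by field_simp
          rw [h6, map_mul, h4, hfixcube _ h5]
        · by_cases hz0 : z = 0
          · rw [hz0, map_zero]
          have hQ0 : algebraMap ℚ W q ≠ 0 := by
            intro h0
            have h7 : B * B' = 0 := by rw [hBB, h0]; ring
            rcases mul_eq_zero.1 h7 with h8 | h8
            · exact hB0 h8
            · rw [h8, sub_zero] at h
              exact hz0 (pow_eq_zero_iff (by norm_num) |>.1 h)
          have h5 : (z * α / algebraMap ℚ W q) ^ 3 = 1 := by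
            rw [div_pow, mul_pow, hα3, sub_eq_zero.1 h, mul_comm, hBB, div_self (pow_ne_zero 3 hQ0)]
          have h6 : z = (z * α / algebraMap ℚ W q) * (algebraMap ℚ W q / α) := by field_simp
          rw [h6, map_mul, map_div₀ σ _ α, h4, AlgEquiv.commutes, hfixcube _ h5]
  apply AlgEquiv.ext
  intro z
  exact DFunLike.congr_fun key z

end Pool.Agent.K4H1.EXT.S
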