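import Pool.Agent.R441.CN.G

/-! Dirichlet's class number formula for `ℚ(√-n)`, `n ≡ 3 (mod 4)` squarefree (not nec. prime).
Adapted from the prime case in `Pool.Agent.R441.CN`. -/

set_option autoImplicit false

namespace Pool.Agent.K4H1.EXT

open NumberField Module Pool.Agent.R441.CN

section
variable {K : Type*} [Field K] [NumberField K] {p : ℕ} {α : K}

/-- a rational with `p u²` an integer is an integer -/
lemma int_of_sq' {p : ℕ} (hp : Squarefree p) (u : ℚ) (n : ℤ) (h : p * u ^ 2 = n) :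
    ∃ m : ℤ, u = m := by
  have h1 : IsIntegral ℤ ((p : ℚ) * u) := by
    have : ((p : ℚ) * u) ^ 2 = ((p * n : ℤ) : ℚ) := by push_cast; rw [← h]; ring
    have h2 : IsIntegral ℤ (((p : ℚ) * u) ^ 2) := by
      rw [this]; exact isIntegral_algebraMap (R := ℤ) (A := ℚ) (x := (p * n : ℤ))
    exact h2.of_pow (by norm_num)
  obtain ⟨m, hm⟩ := IsIntegrallyClosed.isIntegral_iff.1 h1
  have hm' : (m : ℚ) = p * u := by simpa using hm
  have hp0 : (p : ℚ) ≠ 0 := by exact_mod_cast hp.ne_zero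
  have h3 : ((m : ℚ)) ^ 2 = p * n := by rw [hm', ← h]; ring
  have h4 : m ^ 2 = p * n := by exact_mod_cast h3
  have hsq : Squarefree (p : ℤ) := Int.squarefree_natCast.2 hp
  have h5 : (p : ℤ) ∣ m := (hsq.dvd_pow_iff_dvd (two_ne_zero)).1 (Dvd.intro _ h4.symm)
  obtain ⟨t, ht⟩ := h5
  refine ⟨t, ?_⟩
  rw [ht] at hm'
  push_cast at hm'
  exact (mul_left_cancel₀ hp0 hm').symm

lemma coords' (h2 : finrank ℚ K = 2) (hp0 : 0 < p) (hp : Squarefree p) (hα : α ^ 2 = -(p : K)) (x : K)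
    (hx : IsIntegral ℤ x) : ∃ t u : ℤ, 4 ∣ t ^ 2 + p * u ^ 2 ∧ 2 * x = t + u * α := by
  obtain ⟨a, b, rfl⟩ := exists_coord h2 hp0 hα x
  have h1 := Algebra.isIntegral_trace (L := ℚ) (F := K) (R := ℤ) (x := algebraMap ℚ K a + algebraMap ℚ K b * α) hx
  have h3 := Algebra.isIntegral_norm (K := ℚ) (R := ℤ) (L := K) (x := algebraMap ℚ K a + algebraMap ℚ K b * α) hx
  rw [trace_eq h2 hp0 hα] at h1
  rw [norm_eq h2 hp0 hα] at h3
  obtain ⟨t, ht⟩ := IsIntegrallyClosed.isIntegral_iff.1 h1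
  obtain ⟨n, hn⟩ := IsIntegrallyClosed.isIntegral_iff.1 h3
  have ht' : (t : ℚ) = 2 * a := by simpa using ht
  have hn' : (n : ℚ) = a ^ 2 + p * b ^ 2 := by simpa using hn
  obtain ⟨u, hu⟩ := int_of_sq' hp (2 * b) (4 * n - t ^ 2) (by push_cast; rw [ht', hn']; ring)
  refine ⟨t, u, ⟨n, ?_⟩, ?_⟩
  · have : ((t ^ 2 + p * u ^ 2 : ℤ) : ℚ) = ((4 * n : ℤ) : ℚ) := by
      push_cast
      rw [ht', hn', ← hu]
      ring
    exact_mod_cast this
  · have e1 : (t : K) = 2 * algebraMap ℚ K a := by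
      have : algebraMap ℚ K (t : ℚ) = algebraMap ℚ K (2 * a) := by rw [ht']
      simpa using this
    have e2 : (u : K) = 2 * algebraMap ℚ K b := by
      have : algebraMap ℚ K (u : ℚ) = algebraMap ℚ K (2 * b) := by rw [hu]
      simpa using this
    rw [e1, e2]
    ring

lemma norm_coords' (h2 : finrank ℚ K = 2) (hp0 : 0 < p) (hα : α ^ 2 = -(p : K)) (x : K) (t u : ℤ)
    (hx : 2 * x = t + u * α) : 4 * Algebra.norm ℚ x = t ^ 2 + p * u ^ 2 := by
  have e : x = algebraMap ℚ K (t / 2) + algebraMap ℚ K (u / 2) * α := by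
    have : (2 : K) ≠ 0 := two_ne_zero
    apply mul_left_cancel₀ this
    rw [hx]
    simp only [map_div₀, map_intCast, map_ofNat]
    field_simp
  rw [e, norm_eq h2 hp0 hα]
  ring

/-- `p ≡ 3 (mod 4)`: the discriminant is `-p`. -/
theorem discr_three' (h2 : finrank ℚ K = 2) (hp0 : 0 < p) (hp : Squarefree p) (hα : α ^ 2 = -(p : K))
    (h4 : p % 4 = 3) : discr K = -p := by
  obtain ⟨θ, hθ⟩ : ∃ θ : 𝓞 K, (θ : K) = (1 + α) / 2 := ⟨⟨_, int_omega hα h4⟩, rfl⟩
  have hθ' : (1 + α) / 2 = algebraMap ℚ K (1 / 2) + algebraMap ℚ K (1 / 2) * α := by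
    simp only [map_div₀, map_one, map_ofNat]
    ring
  have key := discr_of_gen h2 θ
    (linInd_int hp0 hα _ (1 / 2) (1 / 2) (by norm_num) (by rw [hθ, hθ'])) (by
      intro x
      obtain ⟨t, u, hd, hx⟩ := coords' h2 hp0 hp hα (x : K) x.2
      have hpz : (p : ℤ) % 4 = 3 := by omega
      have ht : (t - u) % 2 = 0 := by
        obtain ⟨c, hc⟩ := hd
        obtain ⟨q, hq⟩ : ∃ q : ℤ, (p : ℤ) = 4 * q + 3 := ⟨(p : ℤ) / 4, by omega⟩
        rw [hq] at hc
        rcases Int.emod_two_eq_zero_or_one t with h | h <;>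
          rcases Int.emod_two_eq_zero_or_one u with h' | h'
        · omega
        · exfalso
          obtain ⟨t', rfl⟩ : ∃ t', t = 2 * t' := ⟨t / 2, by omega⟩
          obtain ⟨u', rfl⟩ : ∃ u', u = 2 * u' + 1 := ⟨u / 2, by omega⟩
          have : 4 * (t' ^ 2 + q * (2 * u' + 1) ^ 2 + 3 * u' ^ 2 + 3 * u' - c) = -3 := by
            linear_combination hc
          omega
        · exfalso
          obtain ⟨t', rfl⟩ : ∃ t', t = 2 * t' + 1 := ⟨t / 2, by omega⟩
          obtain ⟨u', rfl⟩ : ∃ u', u = 2 * u' := ⟨u / 2, by omega⟩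
          have : 4 * (t' ^ 2 + t' + 4 * q * u' ^ 2 + 3 * u' ^ 2 - c) = -1 := by linear_combination hc
          omega
        · omega
      obtain ⟨m, hm⟩ : ∃ m, t = 2 * m + u := ⟨(t - u) / 2, by omega⟩
      subst hm
      refine ⟨m, u, ?_⟩
      apply RingOfIntegers.ext
      have e1 : (((m : 𝓞 K) + (u : 𝓞 K) * θ : 𝓞 K) : K) =
          m + u * ((1 + α) / 2) := by
        rw [coe_lin, hθ]
      rw [e1]
      have : (2 : K) ≠ 0 := two_ne_zero
      apply mul_left_cancel₀ this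
      rw [hx]
      push_cast
      field_simp
      ring)
  rw [hθ] at key
  have e2 : ((1 + α) / 2) ^ 2 = algebraMap ℚ K ((1 - p) / 4) + algebraMap ℚ K (1 / 2) * α := by
    simp only [map_div₀, map_one, map_ofNat, map_sub, map_natCast]
    linear_combination hα / 4
  rw [e2, hθ', trace_eq h2 hp0 hα, trace_eq h2 hp0 hα] at key
  have h6 : ((discr K : ℤ) : ℚ) = ((-p : ℤ) : ℚ) := by
    rw [key]; push_cast; ring
  exact_mod_cast h6

end

end Pool.Agent.K4H1.EXT
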