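import Pool.Agent.K4H1.EXT.P2b

/-! The class number of `ℚ(√-n)` as an `L`-value; the class number formula. -/

set_option autoImplicit false

namespace Pool.Agent.K4H1.EXT

open NumberField Module H300.HW IsCyclotomicExtension.Rat Pool.Agent.Y125.XT DirichletCharacter
open IntermediateField Pool.Agent.R441.CN

section
variable (n : ℕ) [NeZero n] (L : Type) [Field L] [NumberField L] [IsCyclotomicExtension {n} ℚ L]

/-- the class number of a quadratic field containing `√-p`, as an `L`-value -/
theorem classNumber_L' {p : ℕ} (hp0 : 0 < p) (hp : Squarefree p) (h5 : 5 ≤ p) (α : L) (hα : α ^ 2 = -(p : L))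
    (χ : DirichletCharacter ℂ n) (hprim : χ.IsPrimitive) (hne : χ ≠ 1)
    (hχ : ∀ σ : Gal(L/ℚ), σ α = α → χ (galEquivZMod n L σ : ZMod n) = 1)
    (K : Type) [Field K] [NumberField K] (h2 : finrank ℚ K = 2) (β : K) (hβ : β ^ 2 = -(p : K)) :
    ((Real.pi * classNumber K / Real.sqrt |discr K| : ℝ) : ℂ) = DirichletCharacter.LFunction χ 1 := by
  obtain ⟨h3, h4⟩ := residue_L n L hp0 α hα χ hprim hne hχ
  set γ : ℚ⟮α⟯ := ⟨α, mem_adjoin_simple_self ℚ α⟩ with hγ
  have hγ2 : γ ^ 2 = -(p : ℚ⟮α⟯) := by
    apply Subtype.ext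
    push_cast
    exact hα
  rw [residue_formula' h3 hp0 hp h5 hγ2] at h4
  rw [← h4]
  -- isomorphism
  have hbij : ∃ f : K →ₐ[ℚ] ℚ⟮α⟯, Function.Bijective f := by
    set pb : PowerBasis ℚ ℚ⟮α⟯ := IntermediateField.adjoin.powerBasis (Algebra.IsIntegral.isIntegral α)
    have hg : Polynomial.aeval β (minpoly ℚ pb.gen) = 0 := by
      have hgen : pb.gen = γ := by
        rw [adjoin.powerBasis_gen]
        rfl
      have hmin : minpoly ℚ pb.gen = Polynomial.X ^ 2 + Polynomial.C (p : ℚ) := by
        rw [hgen]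
        symm
        apply minpoly.eq_of_irreducible_of_monic
        · have hm : (Polynomial.X ^ 2 + Polynomial.C (p : ℚ)).Monic := by monicity!
          have h3 : (Polynomial.X ^ 2 + Polynomial.C (p : ℚ)).natDegree = 2 := by compute_degree!
          rw [Polynomial.irreducible_iff_roots_eq_zero_of_degree_le_three (by omega) (by omega)]
          rw [Multiset.eq_zero_iff_forall_notMem]
          intro q hq
          rw [Polynomial.mem_roots hm.ne_zero, Polynomial.IsRoot.def] at hq
          simp at hq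
          have : (0 : ℚ) < p := by exact_mod_cast hp0
          nlinarith [sq_nonneg q]
        · simp [hγ2]
        · monicity!
      rw [hmin]
      simp [hβ]
    have hf := pb.lift β hg
    have hinj : Function.Injective hf := hf.toRingHom.injective
    have hsur : Function.Surjective hf := by
      have := LinearMap.injective_iff_surjective_of_finrank_eq_finrank (f := hf.toLinearMap) (by rw [h2, h3])
      exact this.1 hinj
    let e := AlgEquiv.ofBijective hf ⟨hinj, hsur⟩
    exact ⟨e.symm.toAlgHom, e.symm.bijective⟩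
  obtain ⟨f, hf⟩ := hbij
  let e : K ≃ₐ[ℚ] ℚ⟮α⟯ := AlgEquiv.ofBijective f hf
  have hd : discr K = discr ℚ⟮α⟯ := discr_eq_discr_of_algEquiv K e
  have hc : classNumber K = classNumber ℚ⟮α⟯ := by
    have eR : 𝓞 K ≃+* 𝓞 ℚ⟮α⟯ := RingOfIntegers.mapRingEquiv e.toRingEquiv
    exact Fintype.card_congr (ClassGroup.mulEquiv eR).toEquiv
  rw [hd, hc]

end

end Pool.Agent.K4H1.EXT
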