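import Mathlib

/-! Valuations in Galois extensions of number fields: ramification, conjugation. -/

set_option autoImplicit false
set_option linter.unusedSectionVars false

open NumberField IsDedekindDomain WithZero
open scoped Pointwise

namespace Pool.Agent.K4H1.EXT.S

/-- the prime below -/
noncomputable def dn (F : Type) [Field F] [NumberField F] {K : Type} [Field K] [NumberField K] [Algebra F K]
    (w : HeightOneSpectrum (𝓞 K)) : HeightOneSpectrum (𝓞 F) :=
  ⟨w.asIdeal.under (𝓞 F), Ideal.IsPrime.under _ _, fun h0 => w.ne_bot (Ideal.eq_bot_of_comap_eq_bot h0)⟩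

section
variable {F K : Type} [Field F] [NumberField F] [Field K] [NumberField K] [Algebra F K]

lemma dn_mem {w : HeightOneSpectrum (𝓞 K)} {α : 𝓞 F} :
    α ∈ (dn F w).asIdeal ↔ algebraMap (𝓞 F) (𝓞 K) α ∈ w.asIdeal := Iff.rfl

lemma dn_surj (v : HeightOneSpectrum (𝓞 F)) : ∃ w : HeightOneSpectrum (𝓞 K), dn F w = v := by
  obtain ⟨P⟩ := (inferInstance : Nonempty (v.asIdeal.primesOver (𝓞 K)))
  refine ⟨⟨P.1, P.2.1, ?_⟩, ?_⟩
  · intro h0
    have h1 : v.asIdeal = P.1.under (𝓞 F) := P.2.2.over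
    apply v.ne_bot
    rw [h1, h0]
    rw [Ideal.under_def, Ideal.comap_bot_of_injective]
    exact FaithfulSMul.algebraMap_injective (𝓞 F) (𝓞 K)
  · apply HeightOneSpectrum.ext
    exact P.2.2.over.symm

/-- valuations above: some positive power -/
lemma val_rel' (w : HeightOneSpectrum (𝓞 K)) : ∃ e : ℕ, 0 < e ∧ ∀ x : F,
    w.valuation K (algebraMap F K x) = (dn F w).valuation F x ^ e := by
  have hover : w.asIdeal.LiesOver (dn F w).asIdeal := ⟨rfl⟩
  have hQ := w.isPrime
  refine ⟨Ideal.ramificationIdx' (dn F w).asIdeal w.asIdeal, Nat.pos_of_ne_zero ?_, fun x => ?_⟩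
  · exact Ideal.IsDedekindDomain.ramificationIdx'_ne_zero_of_liesOver w.asIdeal (dn F w).ne_bot
  · exact (HeightOneSpectrum.valuation_liesOver (K := F) K (dn F w) w x).symm

variable [IsGalois F K]

lemma val_rel (w : HeightOneSpectrum (𝓞 K)) (x : F) :
    w.valuation K (algebraMap F K x) =
      (dn F w).valuation F x ^ Nat.card (w.asIdeal.inertia (K ≃ₐ[F] K)) := by
  have hover : w.asIdeal.LiesOver (dn F w).asIdeal := ⟨rfl⟩
  have hQ := w.isPrime
  have hmax : (dn F w).asIdeal.IsMaximal := (dn F w).isMaximal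
  have h1 := HeightOneSpectrum.valuation_liesOver (K := F) K (dn F w) w x
  have hfin : Finite (𝓞 F ⧸ (dn F w).asIdeal) := Ideal.finiteQuotientOfFreeOfNeBot _ (dn F w).ne_bot
  have hfr : Finite (dn F w).asIdeal.ResidueField := by
    have e := Ideal.bijective_algebraMap_quotient_residueField (dn F w).asIdeal
    exact Finite.of_surjective _ e.2
  have hperf : PerfectField (dn F w).asIdeal.ResidueField := inferInstance
  have h3 : Ideal.ramificationIdx' (dn F w).asIdeal w.asIdeal = Nat.card (w.asIdeal.inertia (K ≃ₐ[F] K)) := by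
    rw [Ideal.card_inertia_eq_ramificationIdxIn (dn F w).asIdeal w.asIdeal,
      Ideal.ramificationIdxIn_eq_ramificationIdx (dn F w).asIdeal w.asIdeal (K ≃ₐ[F] K),
      Ideal.ramificationIdx'_eq_ramificationIdx _ _ (dn F w).ne_bot]
  rw [← h1, h3]

/-- the inertia order depends only on the prime below -/
lemma inertia_card_eq {w w' : HeightOneSpectrum (𝓞 K)} (h : dn F w = dn F w') :
    Nat.card (w.asIdeal.inertia (K ≃ₐ[F] K)) = Nat.card (w'.asIdeal.inertia (K ≃ₐ[F] K)) := by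
  have key : ∀ u : HeightOneSpectrum (𝓞 K), Nat.card (u.asIdeal.inertia (K ≃ₐ[F] K)) =
      Ideal.ramificationIdxIn (dn F u).asIdeal (𝓞 K) := by
    intro u
    have hover : u.asIdeal.LiesOver (dn F u).asIdeal := ⟨rfl⟩
    have hQ := u.isPrime
    have hmax : (dn F u).asIdeal.IsMaximal := (dn F u).isMaximal
    have hfin : Finite (𝓞 F ⧸ (dn F u).asIdeal) := Ideal.finiteQuotientOfFreeOfNeBot _ (dn F u).ne_bot
    have hfr : Finite (dn F u).asIdeal.ResidueField := by
      have e := Ideal.bijective_algebraMap_quotient_residueField (dn F u).asIdeal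
      exact Finite.of_surjective _ e.2
    have hperf : PerfectField (dn F u).asIdeal.ResidueField := inferInstance
    exact Ideal.card_inertia_eq_ramificationIdxIn (dn F u).asIdeal u.asIdeal
  rw [key, key, h]

/-- transitivity with valuations -/
lemma exists_conj {w w' : HeightOneSpectrum (𝓞 K)} (h : dn F w = dn F w') :
    ∃ σ : K ≃ₐ[F] K, ∀ x : K, w'.valuation K (σ x) = w.valuation K x := by
  have hover : w.asIdeal.LiesOver (dn F w).asIdeal := ⟨rfl⟩
  have hover' : w'.asIdeal.LiesOver (dn F w).asIdeal := by rw [h]; exact ⟨rfl⟩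
  have hQ := w.isPrime
  have hQ' := w'.isPrime
  have hmax : (dn F w).asIdeal.IsMaximal := (dn F w).isMaximal
  obtain ⟨σ, hσ⟩ := Ideal.exists_smul_eq_of_isGaloisGroup (dn F w).asIdeal w.asIdeal w'.asIdeal (K ≃ₐ[F] K)
  have hint : ∀ x : 𝓞 K, w'.intValuation (σ • x) = w.intValuation x := by
    intro x
    by_cases hx : x = 0
    · subst hx; simp
    have key : ∀ n : ℕ, w'.intValuation (σ • x) ≤ exp (-(n : ℤ)) ↔ w.intValuation x ≤ exp (-(n : ℤ)) := by
      intro n
      rw [HeightOneSpectrum.intValuation_le_pow_iff_mem, HeightOneSpectrum.intValuation_le_pow_iff_mem,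
        ← hσ, ← smul_pow', Ideal.smul_mem_pointwise_smul_iff]
    have hx' : σ • x ≠ 0 := by
      intro h0
      apply hx
      have := congrArg (fun z => σ⁻¹ • z) h0
      simpa using this
    have f : ∀ (v : HeightOneSpectrum (𝓞 K)) (z : 𝓞 K), z ≠ 0 → ∃ n : ℕ, v.intValuation z = exp (-(n : ℤ)) := by
      intro v z hz
      exact ⟨_, v.intValuation_eq_exp_neg_multiplicity hz⟩
    obtain ⟨a, ha⟩ := f w' _ hx'
    obtain ⟨b, hb⟩ := f w _ hx
    have h1 := (key b).2 hb.le
    have h2 := (key a).1 ha.le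
    rw [ha] at h1 ⊢
    rw [hb] at h2 ⊢
    exact le_antisymm h1 h2
  refine ⟨σ, fun x => ?_⟩
  obtain ⟨a, b, hb, rfl⟩ := IsFractionRing.div_surjective (A := 𝓞 K) x
  have e1 : ∀ z : 𝓞 K, σ (algebraMap (𝓞 K) K z) = algebraMap (𝓞 K) K (σ • z) := fun z => rfl
  rw [map_div₀ σ, e1, e1, map_div₀, map_div₀, HeightOneSpectrum.valuation_of_algebraMap,
    HeightOneSpectrum.valuation_of_algebraMap, HeightOneSpectrum.valuation_of_algebraMap,
    HeightOneSpectrum.valuation_of_algebraMap, hint, hint]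

end

section
variable {K : Type} [Field K] [NumberField K]

/-- unit at all places -/
def IU (u : K) : Prop := ∀ w : HeightOneSpectrum (𝓞 K), w.valuation K u = 1

lemma IU.mul {u v : K} (hu : IU u) (hv : IU v) : IU (u * v) := fun w => by rw [map_mul, hu, hv, one_mul]
lemma IU.inv {u : K} (hu : IU u) : IU u⁻¹ := fun w => by rw [map_inv₀, hu, inv_one]
lemma IU.div {u v : K} (hu : IU u) (hv : IU v) : IU (u / v) := fun w => by rw [map_div₀, hu, hv, div_one]
lemma IU.pow {u : K} (hu : IU u) (n : ℕ) : IU (u ^ n) := fun w => by rw [map_pow, hu, one_pow]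
lemma IU.zpow {u : K} (hu : IU u) (n : ℤ) : IU (u ^ n) := fun w => by rw [map_zpow₀, hu, one_zpow]
lemma IU.neg {u : K} (hu : IU u) : IU (-u) := fun w => by rw [Valuation.map_neg, hu]
lemma IU.one : IU (1 : K) := fun w => map_one _

lemma IU.unit {u : K} (hu : IU u) (h0 : u ≠ 0) : ∃ e : (𝓞 K)ˣ, ((e : 𝓞 K) : K) = u := by
  obtain ⟨a, ha⟩ := HeightOneSpectrum.mem_integers_of_valuation_le_one (R := 𝓞 K) K u fun w => (hu w).le
  obtain ⟨b, hb⟩ := HeightOneSpectrum.mem_integers_of_valuation_le_one (R := 𝓞 K) K u⁻¹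
    fun w => (hu.inv w).le
  have h1 : a * b = 1 := by
    apply RingOfIntegers.ext
    have : ((a * b : 𝓞 K) : K) = (a : K) * b := rfl
    rw [this]
    change (algebraMap (𝓞 K) K a) * (algebraMap (𝓞 K) K b) = 1
    rw [ha, hb, mul_inv_cancel₀ h0]
  exact ⟨⟨a, b, h1, by rw [mul_comm]; exact h1⟩, ha⟩

lemma IU.of_unit (e : (𝓞 K)ˣ) : IU ((e : 𝓞 K) : K) := fun w => by
  have h1 : w.valuation K ((e : 𝓞 K) : K) ≤ 1 := w.valuation_le_one (e : 𝓞 K)
  have h2 : w.valuation K (((e⁻¹ : (𝓞 K)ˣ) : 𝓞 K) : K) ≤ 1 := w.valuation_le_one _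
  have h3 : ((e : 𝓞 K) : K) * (((e⁻¹ : (𝓞 K)ˣ) : 𝓞 K) : K) = 1 := by
    have : (((e : 𝓞 K) * ((e⁻¹ : (𝓞 K)ˣ) : 𝓞 K) : 𝓞 K) : K) = 1 := by simp
    exact this
  have h4 := congrArg (w.valuation K) h3
  rw [map_mul, map_one] at h4
  apply le_antisymm h1
  calc (1 : ℤᵐ⁰) = w.valuation K ((e : 𝓞 K) : K) * w.valuation K (((e⁻¹ : (𝓞 K)ˣ) : 𝓞 K) : K) := h4.symm
    _ ≤ w.valuation K ((e : 𝓞 K) : K) * 1 := by gcongr
    _ = _ := mul_one _

end

end Pool.Agent.K4H1.EXT.S
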