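import Pool.Agent.K4H1.EXT.S1

/-! A unit fixed by `ρ` that is not a cube up to sign. -/

set_option autoImplicit false
set_option linter.unusedSectionVars false

open NumberField IsDedekindDomain WithZero Module

namespace Pool.Agent.K4H1.EXT.S

lemma exists_noncube_units {N : Type} [Field N] [NumberField N] (h : 3 ≤ finrank ℚ N) :
    ∃ e : (𝓞 N)ˣ, ∀ v : (𝓞 N)ˣ, e ≠ v ^ 3 ∧ e ≠ -v ^ 3 := by
  have hr : 0 < Units.rank N := by
    have h1 := InfinitePlace.card_add_two_mul_card_eq_rank N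
    have h2 := InfinitePlace.card_eq_nrRealPlaces_add_nrComplexPlaces N
    rw [Units.rank]
    omega
  let i : Fin (Units.rank N) := ⟨0, hr⟩
  refine ⟨Units.fundSystem N i, ?_⟩
  have key : ∀ v : (𝓞 N)ˣ, ∀ ζ ∈ Units.torsion N, Units.fundSystem N i ≠ ζ * v ^ 3 := by
    intro v ζ hζ he
    have h1 := Units.logEmbedding_fundSystem N i
    rw [he, ofMul_mul, ofMul_pow, map_add, map_nsmul,
      (Units.dirichletUnitTheorem.logEmbedding_eq_zero_iff).2 hζ, zero_add] at h1
    have hv : Units.logEmbedding N (Additive.ofMul v) ∈ Units.unitLattice N := ⟨Additive.ofMul v, trivial, rfl⟩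
    have h2 : Units.basisUnitLattice N i = (3 : ℕ) • (⟨_, hv⟩ : Units.unitLattice N) := by
      apply Subtype.ext
      rw [← h1]
      rfl
    have h3 := DFunLike.congr_fun (congrArg (Units.basisUnitLattice N).repr h2) i
    rw [map_nsmul, Basis.repr_self, Finsupp.smul_apply, Finsupp.single_eq_same, nsmul_eq_mul] at h3
    push_cast at h3
    omega
  intro v
  constructor
  · intro h
    exact key v 1 (one_mem _) (by rw [one_mul]; exact h)
  · intro h
    refine key v (-1) ?_ (by rw [h]; simp)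
    show (-1 : (𝓞 N)ˣ) ∈ CommGroup.torsion (𝓞 N)ˣ
    rw [CommGroup.mem_torsion, isOfFinOrder_iff_pow_eq_one]
    exact ⟨2, by norm_num, by simp⟩

theorem exists_noncube {L W : Type} [Field L] [NumberField L] [Field W] [NumberField W] [Algebra L W]
    [IsGalois L W] (ρ : W ≃ₐ[L] W)
    (hN : 3 ≤ finrank ℚ (IntermediateField.fixedField (Subgroup.zpowers ρ))) :
    ∃ u : W, u ≠ 0 ∧ IU u ∧ ρ u = u ∧ ∀ v : W, v ≠ 0 → IU v → ρ v = v → u ≠ v ^ 3 ∧ u ≠ -v ^ 3 := by
  set N := IntermediateField.fixedField (Subgroup.zpowers ρ) with hNdef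
  obtain ⟨e, he⟩ := exists_noncube_units hN
  have hfix : ∀ z : N, ρ (z : W) = z := by
    intro z
    exact (IntermediateField.mem_fixedField_iff _ _).1 z.2 ρ (Subgroup.mem_zpowers ρ)
  have hmem : ∀ z : W, ρ z = z → z ∈ N := by
    intro z hz
    rw [hNdef, IntermediateField.mem_fixedField_iff]
    intro f hf
    obtain ⟨k, rfl⟩ := Subgroup.mem_zpowers_iff.1 hf
    have : ρ ∈ MulAction.stabilizer (W ≃ₐ[L] W) z := hz
    exact Subgroup.zpow_mem _ this k
  let u' : N := ((e : 𝓞 N) : N)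
  have hu0 : u' ≠ 0 := by
    intro h0
    have := e.ne_zero
    apply this
    exact RingOfIntegers.ext h0
  let E : (𝓞 W)ˣ := Units.map (algebraMap (𝓞 N) (𝓞 W) : 𝓞 N →* 𝓞 W) e
  have hE : ((E : 𝓞 W) : W) = algebraMap N W u' := rfl
  refine ⟨algebraMap N W u', ?_, ?_, hfix _, ?_⟩
  · intro h0
    exact hu0 ((algebraMap N W).injective (by rw [h0, map_zero]))
  · rw [← hE]
    exact IU.of_unit E
  · intro v hv0 hv hρ
    obtain ⟨V, hV⟩ := hv.unit hv0
    have hvN := hmem v hρ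
    have i1 : IsIntegral ℤ (⟨v, hvN⟩ : N) := by
      have : IsIntegral ℤ (algebraMap N W ⟨v, hvN⟩) := by
        show IsIntegral ℤ v
        rw [← hV]
        exact (V : 𝓞 W).2
      exact (isIntegral_algebraMap_iff (algebraMap N W).injective).1 this
    have i2 : IsIntegral ℤ ((⟨v, hvN⟩ : N)⁻¹) := by
      have : IsIntegral ℤ (algebraMap N W (⟨v, hvN⟩ : N)⁻¹) := by
        rw [map_inv₀]
        show IsIntegral ℤ v⁻¹
        have h3 : ((V : 𝓞 W) : W) * (((V⁻¹ : (𝓞 W)ˣ) : 𝓞 W) : W) = 1 := by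
          have : (((V : 𝓞 W) * ((V⁻¹ : (𝓞 W)ˣ) : 𝓞 W) : 𝓞 W) : W) = 1 := by simp
          exact this
        rw [hV] at h3
        have h4 : v⁻¹ = (((V⁻¹ : (𝓞 W)ˣ) : 𝓞 W) : W) := (eq_inv_of_mul_eq_one_right h3).symm
        rw [h4]
        exact ((V⁻¹ : (𝓞 W)ˣ) : 𝓞 W).2
      exact (isIntegral_algebraMap_iff (algebraMap N W).injective).1 this
    have hv0' : (⟨v, hvN⟩ : N) ≠ 0 := by
      intro h0
      exact hv0 (congrArg Subtype.val h0)
    have hm : (⟨⟨v, hvN⟩, i1⟩ : 𝓞 N) * ⟨(⟨v, hvN⟩ : N)⁻¹, i2⟩ = 1 := by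
      apply RingOfIntegers.ext
      show (⟨v, hvN⟩ : N) * (⟨v, hvN⟩ : N)⁻¹ = 1
      exact mul_inv_cancel₀ hv0'
    let v' : (𝓞 N)ˣ := ⟨⟨⟨v, hvN⟩, i1⟩, ⟨(⟨v, hvN⟩ : N)⁻¹, i2⟩, hm, by rw [mul_comm]; exact hm⟩
    constructor
    · intro h
      apply (he v').1
      apply Units.ext
      apply RingOfIntegers.ext
      apply (algebraMap N W).injective
      have e1 : (((v' ^ 3 : (𝓞 N)ˣ) : 𝓞 N) : N) = (⟨v, hvN⟩ : N) ^ 3 := by
        rw [Units.val_pow_eq_pow_val]; rfl
      change algebraMap N W u' = algebraMap N W _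
      rw [e1, map_pow]
      exact h
    · intro h
      apply (he v').2
      apply Units.ext
      apply RingOfIntegers.ext
      apply (algebraMap N W).injective
      have e1 : (((-v' ^ 3 : (𝓞 N)ˣ) : 𝓞 N) : N) = -(⟨v, hvN⟩ : N) ^ 3 := by
        rw [Units.val_neg, Units.val_pow_eq_pow_val]; rfl
      change algebraMap N W u' = algebraMap N W _
      rw [e1, map_neg, map_pow]
      exact h

end Pool.Agent.K4H1.EXT.S
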