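import Pool.Agent.K4H1.EXT.S2

/-! Hilbert 94 for a cyclic sextic extension `W/L`, `L` imaginary quadratic. -/

set_option autoImplicit false
set_option linter.unusedSectionVars false

open NumberField IsDedekindDomain WithZero Module

namespace Pool.Agent.K4H1.EXT.S

lemma IU.map {L W : Type} [Field L] [NumberField L] [Field W] [NumberField W] [Algebra L W]
    {u : W} (hu : IU u) (h0 : u ≠ 0) (σ : W ≃ₐ[L] W) : IU (σ u) := by
  obtain ⟨e, he⟩ := hu.unit h0
  have : σ u = (((Units.map ((MulSemiringAction.toRingEquiv _ (𝓞 W) σ : 𝓞 W ≃+* 𝓞 W) : 𝓞 W →* 𝓞 W) e : (𝓞 W)ˣ) : 𝓞 W) : W) := by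
    rw [← he]
    rfl
  rw [this]
  exact IU.of_unit _

/-- an element with prescribed valuations divisible by the class number -/
lemma exists_val {L : Type} [Field L] [NumberField L] (f : HeightOneSpectrum (𝓞 L) → ℤ)
    (hf : {p | f p ≠ 0}.Finite) : ∃ a : L, a ≠ 0 ∧ ∀ q : HeightOneSpectrum (𝓞 L),
      q.valuation L a = exp ((Fintype.card (ClassGroup (𝓞 L)) : ℤ) * f q) := by
  classical
  set h := Fintype.card (ClassGroup (𝓞 L)) with hh
  have hpr : ∀ p : HeightOneSpectrum (𝓞 L), ∃ π : 𝓞 L, π ≠ 0 ∧ p.asIdeal ^ h = Ideal.span {π} := by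
    intro p
    have hne : p.asIdeal ^ h ≠ ⊥ := pow_ne_zero _ p.ne_bot
    have h1 : (ClassGroup.mk0 ⟨p.asIdeal, mem_nonZeroDivisors_iff_ne_zero.2 p.ne_bot⟩) ^ h = 1 := by
      rw [hh]; exact pow_card_eq_one
    rw [← map_pow, ClassGroup.mk0_eq_one_iff] at h1
    obtain ⟨⟨π, hπ⟩⟩ := h1
    refine ⟨π, ?_, hπ⟩
    rintro rfl
    apply hne
    have : (p.asIdeal ^ h : Ideal (𝓞 L)) = Submodule.span (𝓞 L) {(0 : 𝓞 L)} := hπ
    rw [this]
    simp
  choose π hπ0 hπ using hpr
  have hv : ∀ p q : HeightOneSpectrum (𝓞 L), q.valuation L (π p : L) =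
      exp (if q = p then -(h : ℤ) else 0) := by
    intro p q
    have e0 : q.valuation L (π p : L) = q.intValuation (π p) := q.valuation_of_algebraMap (π p)
    rw [e0, q.intValuation_eq_exp_neg_multiplicity (hπ0 p), ← hπ p]
    congr 1
    split_ifs with hqp
    · subst hqp
      rw [multiplicity_pow_self q.ne_bot q.irreducible.not_isUnit]
    · rw [multiplicity_eq_zero.2]
      · simp
      · intro hd
        apply hqp
        apply HeightOneSpectrum.ext
        have h1 : q.asIdeal ∣ p.asIdeal := q.prime.dvd_of_dvd_pow hd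
        exact (p.isMaximal.eq_of_le q.isPrime.ne_top (Ideal.le_of_dvd h1)).symm
  refine ⟨∏ p ∈ hf.toFinset, (π p : L) ^ (-f p), ?_, ?_⟩
  · rw [Finset.prod_ne_zero_iff]
    intro p _
    apply zpow_ne_zero
    exact fun h0 => hπ0 p (RingOfIntegers.ext h0)
  · intro q
    rw [map_prod]
    have h1 : ∀ p ∈ hf.toFinset, q.valuation L ((π p : L) ^ (-f p)) = if q = p then exp ((h : ℤ) * f p) else 1 := by
      intro p _
      rw [map_zpow₀, hv]
      split_ifs with hqp
      · rw [← exp_zsmul]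
        congr 1
        simp [mul_comm]
      · simp
    rw [Finset.prod_congr rfl h1, Finset.prod_ite_eq]
    split_ifs with hq
    · rfl
    · have : f q = 0 := by simpa using hq
      rw [this]; simp

/-- Galois-stable divisors come, up to the exponent `2h`, from elements below. -/
lemma exists_down {L W : Type} [Field L] [NumberField L] [Field W] [NumberField W] [Algebra L W]
    [IsGalois L W]
    (hI2 : ∀ w : HeightOneSpectrum (𝓞 W), Nat.card (w.asIdeal.inertia (W ≃ₐ[L] W)) ∣ 2)
    {y : W} (hy0 : y ≠ 0) (hy : ∀ σ : W ≃ₐ[L] W, IU (σ y / y)) :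
    ∃ a : L, a ≠ 0 ∧ IU (y ^ (2 * Fintype.card (ClassGroup (𝓞 L))) / algebraMap L W a) := by
  classical
  set h := Fintype.card (ClassGroup (𝓞 L)) with hh
  choose up hup using fun v : HeightOneSpectrum (𝓞 L) => dn_surj (K := W) v
  have hval0 : ∀ w : HeightOneSpectrum (𝓞 W), w.valuation W y ≠ 0 := fun w => by
    rwa [Ne, map_eq_zero]
  have hconj : ∀ w w' : HeightOneSpectrum (𝓞 W), dn L w = dn L w' → w.valuation W y = w'.valuation W y := by
    intro w w' hww
    obtain ⟨σ, hσ⟩ := exists_conj hww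
    rw [← hσ y]
    have h1 := hy σ w'
    rw [map_div₀] at h1
    exact eq_of_div_eq_one h1
  have hex : ∀ p : HeightOneSpectrum (𝓞 L), ∃ k : ℤ,
      k * Nat.card ((up p).asIdeal.inertia (W ≃ₐ[L] W)) = 2 * log ((up p).valuation W y) := by
    intro p
    obtain ⟨c, hc⟩ := hI2 (up p)
    refine ⟨c * log ((up p).valuation W y), ?_⟩
    have : (2 : ℤ) = (Nat.card ((up p).asIdeal.inertia (W ≃ₐ[L] W)) : ℤ) * c := by exact_mod_cast hc
    rw [this]; ring
  choose f hf using hex
  have hfin : {p | f p ≠ 0}.Finite := by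
    have h1 : {w : HeightOneSpectrum (𝓞 W) | w.valuation W y ≠ 1}.Finite := by
      refine ((HeightOneSpectrum.Support.finite (𝓞 W) y).union
        (HeightOneSpectrum.Support.finite (𝓞 W) y⁻¹)).subset ?_
      intro w hw
      rcases lt_or_gt_of_ne hw with h | h
      · right
        show 1 < w.valuation W y⁻¹
        rw [map_inv₀]
        exact (one_lt_inv₀ (zero_lt_iff.2 (hval0 w))).2 h
      · left
        exact h
    refine (h1.image (dn L)).subset ?_
    intro p hp
    refine ⟨up p, ?_, hup p⟩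
    intro h2
    apply hp
    have h3 := hf p
    have h2' : (up p).valuation W y = 1 := h2
    rw [h2', log_one, mul_zero] at h3
    rcases mul_eq_zero.1 h3 with h4 | h4
    · exact h4
    · exact absurd (by exact_mod_cast h4) (Nat.card_pos (α := (up p).asIdeal.inertia (W ≃ₐ[L] W))).ne'
  obtain ⟨a, ha0, ha⟩ := exists_val f hfin
  refine ⟨a, ha0, fun w => ?_⟩
  rw [map_div₀, map_pow, val_rel w a, ha, ← exp_nsmul, inertia_card_eq (hup (dn L w)).symm,
    hconj w (up (dn L w)) (hup (dn L w)).symm, ← exp_log (hval0 (up (dn L w))), ← exp_nsmul]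
  rw [div_eq_one_iff_eq (exp_ne_zero)]
  congr 1
  have h5 := hf (dn L w)
  simp only [nsmul_eq_mul, log_exp]
  push_cast
  rw [← hh]
  linear_combination (-(h : ℤ)) * h5

section
variable {L W : Type} [Field L] [NumberField L] [Field W] [NumberField W] [Algebra L W]

lemma h90 {s : W ≃ₐ[L] W} (hs : orderOf s = 3) {α ω : W} (hα0 : α ≠ 0) (hsα : s α = ω * α) (hsω : s ω = ω)
    (hω : ω ^ 2 + ω + 1 = 0) {u : W} (hN : u * s u * s (s u) = 1) :
    ∃ x : W, x ≠ 0 ∧ u * s x = x := by
  have hs3 : ∀ z, s (s (s z)) = z := by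
    intro z
    have h1 : s ^ 3 = 1 := by rw [← hs]; exact pow_orderOf_eq_one s
    have h2 := DFunLike.congr_fun h1 z
    simpa [pow_succ] using h2
  have gen : ∀ a : W, u * s (a + u * s a + u * s u * s (s a)) = a + u * s a + u * s u * s (s a) := by
    intro a
    rw [map_add, map_add, map_mul, map_mul, map_mul, hs3]
    linear_combination a * hN
  have b0 := gen 1
  have b1 := gen α
  have b2 := gen (α ^ 2)
  have e1 : α + u * s α + u * s u * s (s α) = α * (1 + ω * u + ω ^ 2 * (u * s u)) := by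
    rw [hsα, map_mul, hsω, hsα]; ring
  have hω3 : ω ^ 3 = 1 := by linear_combination (ω - 1) * hω
  have e2 : α ^ 2 + u * s (α ^ 2) + u * s u * s (s (α ^ 2)) = α ^ 2 * (1 + ω ^ 2 * u + ω * (u * s u)) := by
    rw [map_pow, hsα, map_pow, map_mul, hsω, hsα]
    linear_combination (u * s u * α ^ 2 * ω) * hω3
  have e0 : (1 : W) + u * s 1 + u * s u * s (s 1) = 1 + u + u * s u := by simp
  by_cases h0 : (1 : W) + u + u * s u = 0
  · by_cases h1 : 1 + ω * u + ω ^ 2 * (u * s u) = 0
    · by_cases h2 : 1 + ω ^ 2 * u + ω * (u * s u) = 0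
      · exfalso
        have : (3 : W) = 0 := by linear_combination h0 + h1 + h2 - (u + u * s u) * hω
        norm_num at this
      · exact ⟨_, by rw [e2]; exact mul_ne_zero (pow_ne_zero 2 hα0) h2, b2⟩
    · exact ⟨_, by rw [e1]; exact mul_ne_zero hα0 h1, b1⟩
  · exact ⟨_, by rw [e0]; exact h0, b0⟩

end

end Pool.Agent.K4H1.EXT.S
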