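import Pool.Agent.K4H1.EXT.S3

/-! Hilbert 94, conclusion. -/

set_option autoImplicit false
set_option linter.unusedSectionVars false

open NumberField IsDedekindDomain WithZero Module

namespace Pool.Agent.K4H1.EXT.S

theorem h94 {L W : Type} [Field L] [NumberField L] [Field W] [NumberField W] [Algebra L W]
    [IsGalois L W] (h2 : finrank ℚ L = 2) (hG : Nat.card (W ≃ₐ[L] W) = 6)
    {s ρ : W ≃ₐ[L] W} (hs : orderOf s = 3) (hρ : orderOf ρ = 2) (hc : ∀ z, s (ρ z) = ρ (s z))
    {α ω : W} (hα0 : α ≠ 0) (hsα : s α = ω * α) (hsω : s ω = ω) (hω : ω ^ 2 + ω + 1 = 0)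
    (hU : ∀ u : (𝓞 L)ˣ, u = 1 ∨ u = -1)
    (hI : ∀ w : HeightOneSpectrum (𝓞 W), ∀ σ ∈ w.asIdeal.inertia (W ≃ₐ[L] W), σ ^ 3 = 1 → σ = 1) :
    3 ∣ Fintype.card (ClassGroup (𝓞 L)) := by
  by_contra h3
  have hs3 : ∀ z, s (s (s z)) = z := by
    intro z
    have h1 : s ^ 3 = 1 := by rw [← hs]; exact pow_orderOf_eq_one s
    have h2 := DFunLike.congr_fun h1 z
    simpa [pow_succ] using h2
  have hρ2 : ∀ z, ρ (ρ z) = z := by
    intro z
    have h1 : ρ ^ 2 = 1 := by rw [← hρ]; exact pow_orderOf_eq_one ρ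
    have h2 := DFunLike.congr_fun h1 z
    simpa [pow_succ] using h2
  -- generation
  have hgen : ∀ H : Subgroup (W ≃ₐ[L] W), s ∈ H → ρ ∈ H → H = ⊤ := by
    intro H h1 h2
    apply Subgroup.eq_top_of_card_eq
    rw [hG]
    have d1 : 3 ∣ Nat.card H := by
      rw [← hs, ← Subgroup.orderOf_mk s h1]
      exact orderOf_dvd_natCard _
    have d2 : 2 ∣ Nat.card H := by
      rw [← hρ, ← Subgroup.orderOf_mk ρ h2]
      exact orderOf_dvd_natCard _
    have d3 : Nat.card H ∣ 6 := by rw [← hG]; exact Subgroup.card_subgroup_dvd_card H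
    have d4 := Nat.le_of_dvd (by norm_num) d3
    obtain ⟨c, hc⟩ := d3
    have : Nat.card H ≠ 0 := by intro h; rw [h] at hc; omega
    omega
  have hI2 : ∀ w : HeightOneSpectrum (𝓞 W), Nat.card (w.asIdeal.inertia (W ≃ₐ[L] W)) ∣ 2 := by
    intro w
    have d3 : Nat.card (w.asIdeal.inertia (W ≃ₐ[L] W)) ∣ 6 := by
      rw [← hG]; exact Subgroup.card_subgroup_dvd_card _
    have d5 : ¬ 3 ∣ Nat.card (w.asIdeal.inertia (W ≃ₐ[L] W)) := by
      intro hd
      haveI : Fact (Nat.Prime 3) := ⟨by norm_num⟩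
      obtain ⟨x, hx⟩ := exists_prime_orderOf_dvd_card' 3 hd
      have h1 : (x : W ≃ₐ[L] W) ^ 3 = 1 := by
        have := pow_orderOf_eq_one x
        rw [hx] at this
        exact_mod_cast congrArg Subtype.val this
      have h2 := hI w x x.2 h1
      have h4 : x = 1 := Subtype.ext h2
      rw [h4, orderOf_one] at hx
      norm_num at hx
    have hcop : Nat.Coprime (Nat.card (w.asIdeal.inertia (W ≃ₐ[L] W))) 3 :=
      ((Nat.Prime.coprime_iff_not_dvd (by norm_num)).2 d5).symm
    exact hcop.dvd_of_dvd_mul_right (show _ ∣ 2 * 3 by norm_num; exact d3)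
  -- elements fixed by everything are below, and units there are ±1
  have hpm : ∀ z : W, z ≠ 0 → IU z → s z = z → ρ z = z → z = 1 ∨ z = -1 := by
    intro z hz0 hz h1 h4
    have htop := hgen (MulAction.stabilizer (W ≃ₐ[L] W) z) h1 h4
    obtain ⟨a, ha⟩ := (IsGalois.mem_range_algebraMap_iff_fixed (F := L) (E := W) z).2 (by
      intro σ
      have : σ ∈ MulAction.stabilizer (W ≃ₐ[L] W) z := by rw [htop]; trivial
      exact this)
    have ha0 : a ≠ 0 := by rintro rfl; rw [map_zero] at ha; exact hz0 ha.symm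
    have hIa : IU a := by
      intro p
      obtain ⟨w, rfl⟩ := dn_surj (K := W) p
      obtain ⟨e, he, h5⟩ := val_rel' (F := L) w
      have h6 := h5 a
      rw [ha, hz w] at h6
      exact (pow_eq_one_iff_of_nonneg zero_le he.ne').1 h6.symm
    obtain ⟨e, he⟩ := hIa.unit ha0
    rcases hU e with h | h
    · left; rw [← ha, ← he, h]; simp
    · right; rw [← ha, ← he, h]; simp
  -- Claim 1
  have claim1 : ∀ u : W, u ≠ 0 → IU u → ρ u = u → u * s u * s (s u) = 1 →
      ∃ t : W, t ≠ 0 ∧ IU t ∧ ρ t = t ∧ u * s t = t := by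
    intro u hu0 hu hρu hN
    obtain ⟨x, hx0, hx⟩ := h90 hs hα0 hsα hsω hω hN
    have hsx0 : s x ≠ 0 := by rwa [Ne, map_eq_zero]
    have hρx0 : ρ x ≠ 0 := by rwa [Ne, map_eq_zero]
    have hsρx0 : s (ρ x) ≠ 0 := by rwa [Ne, map_eq_zero]
    have hsu0 : s u ≠ 0 := by rwa [Ne, map_eq_zero]
    have hssu0 : s (s u) ≠ 0 := by rwa [Ne, map_eq_zero]
    have hx' : u * s (ρ x) = ρ x := by
      have := congrArg ρ hx
      rwa [map_mul, hρu, ← hc] at this
    obtain ⟨y3, hy3⟩ : ∃ y3, y3 = u ^ 2 * s u := ⟨_, rfl⟩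
    have hy30 : y3 ≠ 0 := by rw [hy3]; exact mul_ne_zero (pow_ne_zero 2 hu0) hsu0
    have hy3s : u ^ 3 * s y3 = y3 := by
      rw [hy3, map_mul, map_pow]
      linear_combination (u ^ 2 * s u) * hN
    have hρy3 : ρ y3 = y3 := by rw [hy3, map_mul, map_pow, ← hc, hρu]
    have hIy3 : IU y3 := by rw [hy3]; exact (hu.pow 2).mul (hu.map hu0 s)
    have hsy30 : s y3 ≠ 0 := by rwa [Ne, map_eq_zero]
    obtain ⟨y, hy⟩ : ∃ y, y = y3 / (x * ρ x) := ⟨_, rfl⟩
    have hy0 : y ≠ 0 := by rw [hy]; exact div_ne_zero hy30 (mul_ne_zero hx0 hρx0)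
    have hsy0 : s y ≠ 0 := by rwa [Ne, map_eq_zero]
    have hρy : ρ y = y := by
      rw [hy, map_div₀, map_mul, hρ2, hρy3, mul_comm (ρ x)]
    have e2 : u ^ 2 * (s x * s (ρ x)) = x * ρ x := by
      calc u ^ 2 * (s x * s (ρ x)) = (u * s x) * (u * s (ρ x)) := by ring
        _ = x * ρ x := by rw [hx, hx']
    have hys : u * s y = y := by
      have e1 : s y = s y3 / (s x * s (ρ x)) := by rw [hy, map_div₀, map_mul]
      have e4 : y3 / (x * ρ x) = (u ^ 3 * s y3) / (u ^ 2 * (s x * s (ρ x))) := by rw [hy3s, e2]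
      rw [e1, hy, e4]
      field_simp
    have hyIU : ∀ σ : W ≃ₐ[L] W, IU (σ y / y) := by
      let H : Subgroup (W ≃ₐ[L] W) :=
        { carrier := {σ | IU (σ y / y)}
          mul_mem' := by
            intro σ τ hσ hτ
            have hτ0 : τ y ≠ 0 := by rwa [Ne, map_eq_zero]
            have hσ0 : σ y ≠ 0 := by rwa [Ne, map_eq_zero]
            have hτ' : IU (τ y / y) := hτ
            have h1 : IU (σ (τ y / y)) := hτ'.map (div_ne_zero hτ0 hy0) σ
            have h2 : IU (σ (τ y / y) * (σ y / y)) := h1.mul hσ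
            have h3 : σ (τ y / y) * (σ y / y) = (σ * τ) y / y := by
              rw [map_div₀]
              have : (σ * τ) y = σ (τ y) := rfl
              rw [this]
              field_simp
            show IU ((σ * τ) y / y)
            rw [← h3]
            exact h2
          one_mem' := by
            show IU ((1 : W ≃ₐ[L] W) y / y)
            have : (1 : W ≃ₐ[L] W) y = y := rfl
            rw [this, div_self hy0]
            exact IU.one
          inv_mem' := by
            intro σ hσ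
            have hσ0 : σ y ≠ 0 := by rwa [Ne, map_eq_zero]
            have hσ' : IU (σ y / y) := hσ
            have h1 : IU (σ⁻¹ (σ y / y)) := hσ'.map (div_ne_zero hσ0 hy0) σ⁻¹
            have h2 : σ⁻¹ (σ y / y) = (σ⁻¹ y / y)⁻¹ := by
              rw [map_div₀]
              have : σ⁻¹ (σ y) = y := by
                have : (σ⁻¹ * σ) y = y := by rw [inv_mul_cancel]; rfl
                exact this
              rw [this, inv_div]
            rw [h2] at h1
            show IU (σ⁻¹ y / y)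
            have h3 := h1.inv
            rwa [inv_inv] at h3 }
      have hsH : s ∈ H := by
        show IU (s y / y)
        have : s y / y = u⁻¹ := by
          rw [(eq_inv_mul_iff_mul_eq₀ hu0).2 hys, mul_div_cancel_right₀ _ hy0]
        rw [this]
        exact hu.inv
      have hρH : ρ ∈ H := by
        show IU (ρ y / y)
        rw [hρy, div_self hy0]
        exact IU.one
      have htop := hgen H hsH hρH
      intro σ
      have : σ ∈ H := by rw [htop]; trivial
      exact this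
    obtain ⟨a, ha0, ha⟩ := exists_down hI2 hy0 hyIU
    set h := Fintype.card (ClassGroup (𝓞 L)) with hh
    have haW : algebraMap L W a ≠ 0 := by rwa [Ne, map_eq_zero]
    obtain ⟨v, hv⟩ : ∃ v, v = y ^ (2 * h) / algebraMap L W a := ⟨_, rfl⟩
    rw [← hv] at ha
    have hv0 : v ≠ 0 := by rw [hv]; exact div_ne_zero (pow_ne_zero _ hy0) haW
    have hρv : ρ v = v := by rw [hv, map_div₀, map_pow, hρy, AlgEquiv.commutes]
    have hvs : u ^ (2 * h) * s v = v := by
      rw [hv, map_div₀, map_pow, AlgEquiv.commutes, ← mul_div_assoc, ← mul_pow, hys]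
    -- Bezout
    have hcop : IsCoprime ((2 * h : ℕ) : ℤ) (3 : ℤ) := by
      have : Nat.Coprime (2 * h) 3 := by
        apply Nat.Coprime.mul_left (by norm_num)
        exact ((Nat.Prime.coprime_iff_not_dvd (by norm_num)).2 h3).symm
      exact_mod_cast Nat.isCoprime_iff_coprime.2 this
    obtain ⟨A, B, hAB⟩ := hcop
    have hsv0 : s v ≠ 0 := by rwa [Ne, map_eq_zero]
    refine ⟨v ^ A * y3 ^ B, mul_ne_zero (zpow_ne_zero _ hv0) (zpow_ne_zero _ hy30),
      (ha.zpow A).mul (hIy3.zpow B), ?_, ?_⟩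
    · rw [map_mul, map_zpow₀, map_zpow₀, hρv, hρy3]
    · rw [map_mul, map_zpow₀, map_zpow₀]
      have e3 : u = (u ^ (2 * h)) ^ A * (u ^ 3) ^ B := by
        rw [← zpow_natCast, ← zpow_natCast u 3, ← zpow_mul, ← zpow_mul, ← zpow_add₀ hu0]
        have : ((2 * h : ℕ) : ℤ) * A + ((3 : ℕ) : ℤ) * B = 1 := by
          push_cast at hAB ⊢
          linear_combination hAB
        rw [this, zpow_one]
      calc u * (s v ^ A * s y3 ^ B) = ((u ^ (2 * h)) ^ A * (u ^ 3) ^ B) * (s v ^ A * s y3 ^ B) := by rw [← e3]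
        _ = (u ^ (2 * h) * s v) ^ A * (u ^ 3 * s y3) ^ B := by rw [mul_zpow, mul_zpow]; ring
        _ = v ^ A * y3 ^ B := by rw [hvs, hy3s]
  -- norms are ±1
  have hnorm : ∀ z : W, z ≠ 0 → IU z → ρ z = z → z * s z * s (s z) = 1 ∨ z * s z * s (s z) = -1 := by
    intro z hz0 hz hρz
    have hsz0 : s z ≠ 0 := by rwa [Ne, map_eq_zero]
    have hssz0 : s (s z) ≠ 0 := by rwa [Ne, map_eq_zero]
    apply hpm
    · exact mul_ne_zero (mul_ne_zero hz0 hsz0) hssz0
    · exact (hz.mul (hz.map hz0 s)).mul ((hz.map hz0 s).map hsz0 s)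
    · rw [map_mul, map_mul, hs3]; ring
    · rw [map_mul, map_mul, ← hc, ← hc, ← hc, hρz]
  have hcube : ∀ z : W, z ≠ 0 → IU z → ρ z = z → ∃ t : W, t ≠ 0 ∧ IU t ∧ ρ t = t ∧ (z = t ^ 3 ∨ z = -t ^ 3) := by
    -- norm-one case
    have main : ∀ z : W, z ≠ 0 → IU z → ρ z = z → z * s z * s (s z) = 1 →
        ∃ t : W, t ≠ 0 ∧ IU t ∧ ρ t = t ∧ (z = t ^ 3 ∨ z = -t ^ 3) := by
      intro z hz0 hz hρz hN
      obtain ⟨t, ht0, ht, hρt, hts⟩ := claim1 z hz0 hz hρz hN
      obtain ⟨t1, ht10, ht1, hρt1, hts1, hN1⟩ : ∃ t1 : W, t1 ≠ 0 ∧ IU t1 ∧ ρ t1 = t1 ∧ z * s t1 = t1 ∧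
          t1 * s t1 * s (s t1) = 1 := by
        rcases hnorm t ht0 ht hρt with h | h
        · exact ⟨t, ht0, ht, hρt, hts, h⟩
        · refine ⟨-t, neg_ne_zero.2 ht0, ht.neg, by rw [map_neg, hρt], ?_, ?_⟩
          · rw [map_neg, mul_neg, hts]
          · rw [map_neg, map_neg]
            linear_combination -h
      obtain ⟨x, hx0, hx, hρx, hxs⟩ := claim1 t1 ht10 ht1 hρt1 hN1
      have hsx0 : s x ≠ 0 := by rwa [Ne, map_eq_zero]
      have hssx0 : s (s x) ≠ 0 := by rwa [Ne, map_eq_zero]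
      have hst0 : s t1 ≠ 0 := by rwa [Ne, map_eq_zero]
      have e1 : s t1 * s (s x) = s x := by rw [← map_mul, hxs]
      -- z = x * s(s x) / (s x)^2
      have e2 : z * (s x) ^ 3 = x * s x * s (s x) := by
        have h5 : z * s t1 * (s x * (s (s x))) = t1 * (s x * s (s x)) := by rw [hts1]
        have h6 : z * (s x * s x) = x * s (s x) := by
          calc z * (s x * s x) = z * ((s t1 * s (s x)) * s x) := by rw [e1]
            _ = z * s t1 * (s x * s (s x)) := by ring
            _ = t1 * (s x * s (s x)) := h5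
            _ = (t1 * s x) * s (s x) := by ring
            _ = x * s (s x) := by rw [hxs]
        linear_combination (s x) * h6
      have hρsx : ρ (s x) = s x := by rw [← hc, hρx]
      rcases hnorm x hx0 hx hρx with h | h
      · refine ⟨(s x)⁻¹, inv_ne_zero hsx0, (hx.map hx0 s).inv, by rw [map_inv₀, hρsx], Or.inl ?_⟩
        rw [h] at e2
        rw [inv_pow]
        exact eq_inv_of_mul_eq_one_left e2
      · refine ⟨(s x)⁻¹, inv_ne_zero hsx0, (hx.map hx0 s).inv, by rw [map_inv₀, hρsx], Or.inr ?_⟩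
        rw [h] at e2
        rw [inv_pow, eq_neg_iff_add_eq_zero]
        field_simp
        linear_combination e2
    intro z hz0 hz hρz
    rcases hnorm z hz0 hz hρz with h | h
    · exact main z hz0 hz hρz h
    · obtain ⟨t, ht0, ht, hρt, h1⟩ := main (-z) (neg_ne_zero.2 hz0) hz.neg (by rw [map_neg, hρz])
        (by rw [map_neg, map_neg]; linear_combination -h)
      refine ⟨t, ht0, ht, hρt, ?_⟩
      rcases h1 with h1 | h1
      · right; rw [← h1, neg_neg]
      · left; exact neg_injective h1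
  -- contradiction
  have hfr : 3 ≤ finrank ℚ (IntermediateField.fixedField (Subgroup.zpowers ρ)) := by
    have f1 : finrank (IntermediateField.fixedField (Subgroup.zpowers ρ)) W = 2 := by
      rw [IntermediateField.finrank_fixedField_eq_card, Nat.card_zpowers, hρ]
    have f2 : finrank L W = 6 := by rw [← IsGalois.card_aut_eq_finrank, hG]
    have f3 := Module.finrank_mul_finrank L (IntermediateField.fixedField (Subgroup.zpowers ρ)) W
    have f4 := Module.finrank_mul_finrank ℚ L (IntermediateField.fixedField (Subgroup.zpowers ρ))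
    rw [f1, f2] at f3
    rw [h2] at f4
    omega
  obtain ⟨u, hu0, hu, hρu, hn⟩ := exists_noncube ρ hfr
  obtain ⟨t, ht0, ht, hρt, h1⟩ := hcube u hu0 hu hρu
  rcases h1 with h1 | h1
  · exact (hn t ht0 ht hρt).1 h1
  · exact (hn t ht0 ht hρt).2 h1

end Pool.Agent.K4H1.EXT.S
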