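import Pool.Agent.K4H1.EXT.S4

/-! Local argument: no element of order three is in an inertia group. -/

set_option autoImplicit false
set_option linter.unusedSectionVars false

open NumberField IsDedekindDomain WithZero Module

namespace Pool.Agent.K4H1.EXT.S

section
variable {L W : Type} [Field L] [NumberField L] [Field W] [NumberField W] [Algebra L W]

lemma inertia_val {w : HeightOneSpectrum (𝓞 W)} {σ : W ≃ₐ[L] W}
    (hσ : σ ∈ w.asIdeal.inertia (W ≃ₐ[L] W)) {z : W} (hz : w.valuation W z ≤ 1) :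
    w.valuation W (σ z - z) < 1 := by
  have hσ' : ∀ x : 𝓞 W, w.valuation W (σ (x : W) - x) < 1 := by
    intro x
    have h1 : σ • x - x ∈ w.asIdeal := hσ x
    exact (HeightOneSpectrum.valuation_lt_one_iff_mem w _).2 h1
  obtain ⟨n, ⟨d, hd⟩, hnd⟩ := HeightOneSpectrum.exists_primeCompl_mul_eq_of_integer w z hz
  have hd1 : w.valuation W (d : W) = 1 := by
    have := w.intValuation_eq_one_iff_mem_primeCompl d
    have e : w.valuation W (d : W) = w.intValuation d := w.valuation_of_algebraMap d
    rw [e]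
    exact this.2 hd
  have hd0 : (d : W) ≠ 0 := by
    intro h0; rw [h0, map_zero] at hd1; exact zero_ne_one hd1
  have hσd1 : w.valuation W (σ (d : W)) = 1 := by
    have : σ (d : W) = d + (σ (d : W) - d) := by ring
    rw [this, Valuation.map_add_eq_of_lt_left _ (by rw [hd1]; exact hσ' d), hd1]
  have hσd0 : σ (d : W) ≠ 0 := by
    intro h0; rw [h0, map_zero] at hσd1; exact zero_ne_one hσd1
  have hnd' : z * (d : W) = (n : W) := hnd
  have hσnd : σ z * σ (d : W) = σ (n : W) := by rw [← map_mul, hnd']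
  have key : (σ z - z) * σ (d : W) = (σ (n : W) - n) - z * (σ (d : W) - d) := by
    linear_combination hσnd - hnd'
  have h2 : w.valuation W ((σ z - z) * σ (d : W)) < 1 := by
    rw [key]
    apply Valuation.map_sub_lt _ (hσ' n)
    rw [map_mul]
    calc w.valuation W z * w.valuation W (σ (d : W) - d) ≤ 1 * w.valuation W (σ (d : W) - d) := by gcongr
      _ < 1 := by rw [one_mul]; exact hσ' d
  rwa [map_mul, hσd1, mul_one] at h2

/-- an element `σ` of an inertia group that multiplies a cube root of `b` by a primitive cube root of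
unity cannot exist -/
theorem no_inertia {L' : Type} [Field L'] [NumberField L'] [Algebra L' W]
    {w : HeightOneSpectrum (𝓞 W)} {b : L'} (hb : b ≠ 0)
    (hv : ∃ g : ℤᵐ⁰, (dn L' w).valuation L' b = g ^ 3)
    (hp : (3 : 𝓞 L') ∈ (dn L' w).asIdeal → ∃ c : L',
      ((dn L' w).valuation L' (b * c ^ 3 - 1)) ^ 2 ≤ ((dn L' w).valuation L' 3) ^ 3)
    {α ζ : W} (hα : α ^ 3 = algebraMap L' W b) (hζ : ζ ^ 2 + ζ + 1 = 0)
    {σ : W ≃ₐ[L] W} (hσ : σ ∈ w.asIdeal.inertia (W ≃ₐ[L] W)) (hσα : σ α = ζ * α)
    (hσζ : σ ζ = ζ) (hσL : ∀ z : L', σ (algebraMap L' W z) = algebraMap L' W z) : False := by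
  obtain ⟨e, he, hrel⟩ := val_rel' (F := L') w
  have hζ3 : ζ ^ 3 = 1 := by linear_combination (ζ - 1) * hζ
  have hζv : w.valuation W ζ = 1 := by
    have h1 : (w.valuation W ζ) ^ 3 = 1 := by rw [← map_pow, hζ3, map_one]
    exact (pow_eq_one_iff_of_nonneg zero_le (by norm_num)).1 h1
  have h3W : algebraMap L' W 3 = 3 := map_ofNat _ 3
  by_cases h3 : (3 : 𝓞 L') ∈ (dn L' w).asIdeal
  · obtain ⟨c, hc⟩ := hp h3
    have h3v : (dn L' w).valuation L' 3 < 1 := by
      have h' : (dn L' w).valuation L' (algebraMap (𝓞 L') L' 3) < 1 :=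
        (HeightOneSpectrum.valuation_lt_one_iff_mem (K := L') (dn L' w) 3).2 h3
      rwa [map_ofNat] at h'
    have h3w : w.valuation W 3 < 1 := by
      rw [← h3W, hrel]
      exact pow_lt_one₀ zero_le h3v he.ne'
    have h3w0 : w.valuation W (3 : W) ≠ 0 := by simp
    set r : W := 2 * ζ + 1 with hr
    have hr2 : r ^ 2 = -3 := by rw [hr]; linear_combination 4 * hζ
    have hr0 : r ≠ 0 := by
      intro h0; rw [h0] at hr2; norm_num at hr2
    have hrv : (w.valuation W r) ^ 2 = w.valuation W 3 := by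
      rw [← map_pow, hr2, Valuation.map_neg]
    have hrv0 : w.valuation W r ≠ 0 := by rwa [Ne, map_eq_zero]
    set C : W := algebraMap L' W c with hC
    have hBv : (w.valuation W ((α * C) ^ 3 - 1)) ^ 2 ≤ (w.valuation W 3) ^ 3 := by
      have e1 : (α * C) ^ 3 - 1 = algebraMap L' W (b * c ^ 3 - 1) := by
        rw [map_sub, map_mul, map_pow, map_one, ← hα, ← hC]; ring
      rw [e1, hrel, ← h3W, hrel, ← pow_mul, ← pow_mul, mul_comm e 2, mul_comm e 3, pow_mul, pow_mul]
      exact pow_le_pow_left₀ zero_le hc e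
    set z : W := (α * C - 1) / r with hz
    have hzα : α * C = r * z + 1 := by rw [hz]; field_simp; ring
    have hfac : (α * C) ^ 3 - 1 = r ^ 3 * (z * (z - ζ) * (z - (ζ + 1))) := by
      have hp1 : (z - ζ) * (z - (ζ + 1)) = z ^ 2 - r * z - 1 := by
        rw [hr]; linear_combination hζ
      rw [mul_assoc z, hp1, hzα]
      linear_combination (3 * r * z ^ 2 + 3 * z - 3 * r * z ^ 2 - 3 * z) * hr2 +
        (-(r * z + 0)) * (0 : W) + (r ^ 2 * z ^ 2 * 1 + r * z) * hr2
    have hζ1 : w.valuation W (ζ + 1) = 1 := by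
      have : ζ + 1 = -ζ ^ 2 := by linear_combination hζ
      rw [this, Valuation.map_neg, map_pow, hζv, one_pow]
    have hzle : w.valuation W z ≤ 1 := by
      by_contra hcon
      push Not at hcon
      have e1 : w.valuation W (z - ζ) = w.valuation W z :=
        Valuation.map_sub_eq_of_lt_left _ (by rw [hζv]; exact hcon)
      have e2 : w.valuation W (z - (ζ + 1)) = w.valuation W z :=
        Valuation.map_sub_eq_of_lt_left _ (by rw [hζ1]; exact hcon)
      have e3 : w.valuation W ((α * C) ^ 3 - 1) = (w.valuation W r) ^ 3 * (w.valuation W z) ^ 3 := by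
        rw [hfac, map_mul, map_mul, map_mul, e1, e2, map_pow, pow_succ (w.valuation W z), pow_two (w.valuation W z)]
      rw [e3, mul_pow, ← pow_mul, mul_comm 3 2, pow_mul (w.valuation W r), hrv] at hBv
      have h1 : 1 < ((w.valuation W z) ^ 3) ^ 2 := one_lt_pow₀ (one_lt_pow₀ hcon (by norm_num)) (by norm_num)
      have h2 : (w.valuation W (3 : W)) ^ 3 ≠ 0 := pow_ne_zero 3 h3w0
      have h4 : (w.valuation W (3 : W)) ^ 3 * 1 < (w.valuation W (3 : W)) ^ 3 * ((w.valuation W z) ^ 3) ^ 2 :=
        mul_lt_mul_of_pos_left h1 (zero_lt_iff.2 h2)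
      rw [mul_one] at h4
      exact absurd hBv (not_le.2 h4)
    have hlt : w.valuation W ((α * C) ^ 3 - 1) < 1 := by
      by_contra hcon
      push Not at hcon
      have h1 : 1 ≤ (w.valuation W ((α * C) ^ 3 - 1)) ^ 2 := one_le_pow₀ hcon
      have h2 : (w.valuation W (3 : W)) ^ 3 < 1 := pow_lt_one₀ zero_le h3w (by norm_num)
      exact absurd (h1.trans hBv) (not_le.2 h2)
    have hαC : w.valuation W (α * C) = 1 := by
      have e1 : (α * C) ^ 3 = 1 + ((α * C) ^ 3 - 1) := by ring
      have e2 : (w.valuation W (α * C)) ^ 3 = 1 := by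
        rw [← map_pow, e1, Valuation.map_add_eq_of_lt_left _ (by rw [map_one]; exact hlt), map_one]
      exact (pow_eq_one_iff_of_nonneg zero_le (by norm_num)).1 e2
    have h2 := inertia_val hσ hzle
    have hσr : σ r = r := by
      have h2' : σ (2 : W) = 2 := map_ofNat σ 2
      rw [hr, map_add, map_mul, hσζ, map_one, h2']
    have e3 : σ z - z = (ζ - 1) * (α * C) / r := by
      rw [hz, map_div₀, map_sub, map_mul, hσα, hC, hσL, map_one, hσr]
      field_simp
      ring
    have h4 : (w.valuation W (ζ - 1)) ^ 2 = w.valuation W 3 := by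
      have e4 : (ζ - 1) ^ 2 = -(3 * ζ) := by linear_combination hζ
      rw [← map_pow, e4, Valuation.map_neg, map_mul, hζv, mul_one]
    have h5 : (w.valuation W (σ z - z)) ^ 2 = 1 := by
      rw [e3, map_div₀, map_mul, hαC, mul_one, div_pow, h4, hrv, div_self h3w0]
    have h6 : (w.valuation W (σ z - z)) ^ 2 < 1 := pow_lt_one₀ zero_le h2 (by norm_num)
    rw [h5] at h6
    exact lt_irrefl _ h6
  · have h3v : (dn L' w).valuation L' 3 = 1 := by
      have := (HeightOneSpectrum.valuation_eq_one_iff_notMem (K := L') (dn L' w) (r := 3)).2 h3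
      rwa [map_ofNat] at this
    have h3w : w.valuation W 3 = 1 := by
      rw [← h3W, hrel, h3v, one_pow]
    obtain ⟨g, hg⟩ := hv
    have hg0 : g ≠ 0 := by
      rintro rfl
      rw [zero_pow (by norm_num), map_eq_zero] at hg
      exact hb hg
    obtain ⟨c, hc⟩ := HeightOneSpectrum.valuation_surjective L' (dn L' w) g⁻¹
    set C : W := algebraMap L' W c with hC
    have h1 : w.valuation W (α * C) = 1 := by
      have e1 : (α * C) ^ 3 = algebraMap L' W (b * c ^ 3) := by
        rw [map_mul, map_pow, ← hα, ← hC]; ring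
      have e2 : (w.valuation W (α * C)) ^ 3 = 1 := by
        rw [← map_pow, e1, hrel, map_mul, map_pow, hg, hc, inv_pow, mul_inv_cancel₀ (pow_ne_zero 3 hg0), one_pow]
      exact (pow_eq_one_iff_of_nonneg zero_le (by norm_num)).1 e2
    have h2 := inertia_val hσ h1.le
    have e3 : σ (α * C) - α * C = (ζ - 1) * (α * C) := by
      rw [map_mul, hσα, hC, hσL]; ring
    have h4 : w.valuation W (ζ - 1) = 1 := by
      have e4 : (ζ - 1) ^ 2 = -(3 * ζ) := by linear_combination hζ
      have e5 : (w.valuation W (ζ - 1)) ^ 2 = 1 := by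
        rw [← map_pow, e4, Valuation.map_neg, map_mul, h3w, hζv, one_mul]
      exact (pow_eq_one_iff_of_nonneg zero_le (by norm_num)).1 e5
    rw [e3, map_mul, h4, h1, one_mul] at h2
    exact lt_irrefl _ h2

end

end Pool.Agent.K4H1.EXT.S
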