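import Pool.Agent.K4H1.EXT.S5
import Pool.Agent.K4H1.EXT.P2b

/-! Scholz reflection: the Galois group of `W / L`. -/

set_option autoImplicit false
set_option linter.unusedSectionVars false

open NumberField IsDedekindDomain WithZero Module Pool.Agent.R441.CN

namespace Pool.Agent.K4H1.EXT.S

lemma cube_one {W : Type} [Field W] {ω z : W} (hω : ω ^ 2 + ω + 1 = 0) (hz : z ^ 3 = 1) :
    z = 1 ∨ z = ω ∨ z = ω ^ 2 := by
  have h : (z - 1) * ((z - ω) * (z - ω ^ 2)) = 0 := by
    have hω3 : ω ^ 3 = 1 := by linear_combination (ω - 1) * hω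
    have : (z - ω) * (z - ω ^ 2) = z ^ 2 + z + 1 := by
      linear_combination -z * hω + hω3
    rw [this]; linear_combination hz
  rcases mul_eq_zero.1 h with h | h
  · left; exact sub_eq_zero.1 h
  · rcases mul_eq_zero.1 h with h | h
    · right; left; exact sub_eq_zero.1 h
    · right; right; exact sub_eq_zero.1 h

lemma omega_conj {W : Type} [Field W] {ω z : W} (hω : ω ^ 2 + ω + 1 = 0) (hz : z ^ 2 + z + 1 = 0) :
    z = ω ∨ z = ω ^ 2 := by
  have h : (z - ω) * (z - ω ^ 2) = 0 := by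
    have hω3 : ω ^ 3 = 1 := by linear_combination (ω - 1) * hω
    linear_combination hz - z * hω + hω3
  rcases mul_eq_zero.1 h with h | h
  · left; exact sub_eq_zero.1 h
  · right; exact sub_eq_zero.1 h

lemma prim_of {W : Type} [Field W] {ω z : W} (hω : ω ^ 2 + ω + 1 = 0) (hz : z ^ 3 = 1) (h1 : z ≠ 1) :
    z ^ 2 + z + 1 = 0 := by
  have h : (z - 1) * (z ^ 2 + z + 1) = 0 := by linear_combination hz
  rcases mul_eq_zero.1 h with h | h
  · exact absurd (sub_eq_zero.1 h) h1
  · exact h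

section
variable {L L' W : Type} [Field L] [NumberField L] [Field L'] [NumberField L'] [Field W] [NumberField W]
  [Algebra L W] [Algebra L' W] [IsGalois ℚ W]

theorem scholz_aux {n : ℕ} (hn : Squarefree n) (h5 : 5 ≤ n) (h3 : ¬ 3 ∣ n)
    (hL : finrank ℚ L = 2) {x : L} (hx : x ^ 2 = -(n : L))
    {y : L'} (hcoord : ∀ z : L', ∃ p q : ℚ, z = algebraMap ℚ L' p + algebraMap ℚ L' q * y)
    {b : L'} (hb : b ≠ 0) (hnc : ¬ ∃ c, b = c ^ 3)
    {b0 b1 q : ℚ} (hb01 : b = algebraMap ℚ L' b0 + algebraMap ℚ L' b1 * y)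
    (hN : b0 ^ 2 - 3 * n * b1 ^ 2 = q ^ 3)
    (hv : ∀ v : HeightOneSpectrum (𝓞 L'), ∃ g : ℤᵐ⁰, v.valuation L' b = g ^ 3)
    (hp : ∀ v : HeightOneSpectrum (𝓞 L'), (3 : 𝓞 L') ∈ v.asIdeal → ∃ c : L',
      (v.valuation L' (b * c ^ 3 - 1)) ^ 2 ≤ (v.valuation L' 3) ^ 3)
    {ω α : W} (hω : ω ^ 2 + ω + 1 = 0)
    (hxy : algebraMap L' W y = (2 * ω + 1) * algebraMap L W x)
    (hα : α ^ 3 = algebraMap L' W b)
    (hgen : ∀ σ : W ≃ₐ[ℚ] W, σ (algebraMap L W x) = algebraMap L W x → σ ω = ω → σ α = α → σ = 1) :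
    3 ∣ Fintype.card (ClassGroup (𝓞 L)) := by
  have hn0 : 0 < n := by omega
  haveI : IsGalois L W := IsGalois.tower_top_of_isGalois ℚ L W
  haveI : IsGalois L' W := IsGalois.tower_top_of_isGalois ℚ L' W
  have hω3 : ω ^ 3 = 1 := by linear_combination (ω - 1) * hω
  have hω0 : ω ≠ 0 := by rintro rfl; norm_num at hω
  have hω1 : ω ≠ 1 := by
    rintro rfl; norm_num at hω
  have hω2 : ω ^ 2 ≠ ω := by
    intro h
    have : ω * (ω - 1) = 0 := by linear_combination h
    rcases mul_eq_zero.1 this with h | h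
    · exact hω0 h
    · exact hω1 (sub_eq_zero.1 h)
  set X : W := algebraMap L W x with hX
  set B : W := algebraMap L' W b with hB
  have hB0 : B ≠ 0 := by rw [hB, Ne, map_eq_zero]; exact hb
  have hα0 : α ≠ 0 := by rintro rfl; rw [zero_pow (by norm_num)] at hα; exact hB0 hα.symm
  have hratL : ∀ p : ℚ, algebraMap L W (algebraMap ℚ L p) = algebraMap ℚ W p := fun p =>
    (IsScalarTower.algebraMap_apply ℚ L W p).symm
  have hratL' : ∀ p : ℚ, algebraMap L' W (algebraMap ℚ L' p) = algebraMap ℚ W p := fun p =>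
    (IsScalarTower.algebraMap_apply ℚ L' W p).symm
  have hBe : B = algebraMap ℚ W b0 + algebraMap ℚ W b1 * ((2 * ω + 1) * X) := by
    rw [hB, hb01, map_add, map_mul, hratL', hratL', hxy]
  have hX2 : X ^ 2 = -(n : W) := by rw [hX, ← map_pow, hx, map_neg, map_natCast]
  have hX0 : X ≠ 0 := by
    intro h0; rw [h0] at hX2
    have : (n : W) = 0 := by linear_combination hX2
    exact hn0.ne' (by exact_mod_cast this)
  have hr2 : (2 * ω + 1) ^ 2 = -3 := by linear_combination 4 * hω
  have hBB : B * (algebraMap ℚ W b0 - algebraMap ℚ W b1 * ((2 * ω + 1) * X)) = algebraMap ℚ W q ^ 3 := by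
    rw [hBe]
    have h1 := congrArg (algebraMap ℚ W) hN
    simp only [map_sub, map_mul, map_pow, map_natCast, map_ofNat] at h1
    linear_combination h1 - (algebraMap ℚ W b1) ^ 2 * X ^ 2 * hr2 + 3 * (algebraMap ℚ W b1) ^ 2 * hX2
  -- elements of Gal(W/ℚ) fixing X give elements of Gal(W/L)
  have hcoordL := exists_coord hL hn0 hx
  have liftL : ∀ σ : W ≃ₐ[ℚ] W, σ X = X → ∃ τ : W ≃ₐ[L] W, ∀ z, τ z = σ z := by
    intro σ hσ
    refine ⟨AlgEquiv.ofRingEquiv (f := σ.toRingEquiv) ?_, fun z => rfl⟩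
    intro a
    obtain ⟨p, t, rfl⟩ := hcoordL a
    show σ (algebraMap L W _) = _
    rw [map_add, map_mul, hratL, hratL, map_add, map_mul, AlgEquiv.commutes, AlgEquiv.commutes]
    congr 2
  have downL : ∀ τ : W ≃ₐ[L] W, ∃ σ : W ≃ₐ[ℚ] W, (∀ z, σ z = τ z) ∧ σ X = X := by
    intro τ
    exact ⟨τ.restrictScalars ℚ, fun z => rfl, τ.commutes x⟩
  have downL' : ∀ τ : W ≃ₐ[L'] W, ∃ σ : W ≃ₐ[ℚ] W, (∀ z, σ z = τ z) := by
    intro τ
    exact ⟨τ.restrictScalars ℚ, fun z => rfl⟩
  have hgenL : ∀ τ : W ≃ₐ[L] W, τ ω = ω → τ α = α → τ = 1 := by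
    intro τ h1 h2
    obtain ⟨σ, hσ, hσX⟩ := downL τ
    have := hgen σ hσX (by rw [hσ]; exact h1) (by rw [hσ]; exact h2)
    apply AlgEquiv.ext
    intro z
    rw [← hσ z, this]; rfl
  -- action on ω
  have actω : ∀ (f : W ≃ₐ[ℚ] W), f ω = ω ∨ f ω = ω ^ 2 := by
    intro f
    apply omega_conj hω
    have := congrArg f hω
    simpa using this
  have actωL : ∀ (f : W ≃ₐ[L] W), f ω = ω ∨ f ω = ω ^ 2 := by
    intro f
    apply omega_conj hω
    have := congrArg f hω
    simpa using this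
  have actωL' : ∀ (f : W ≃ₐ[L'] W), f ω = ω ∨ f ω = ω ^ 2 := by
    intro f
    apply omega_conj hω
    have := congrArg f hω
    simpa using this
  -- L does not contain ω
  have hωL : ∃ τ : W ≃ₐ[L] W, τ ω ≠ ω := by
    by_contra hcon
    push Not at hcon
    obtain ⟨a, ha⟩ := (IsGalois.mem_range_algebraMap_iff_fixed (F := L) (E := W) ω).2 hcon
    obtain ⟨p, t, hpt⟩ := hcoordL (2 * a + 1)
    have e1 : (2 * a + 1) ^ 2 = -(3 : L) := by
      apply (algebraMap L W).injective
      rw [map_pow, map_add, map_mul, ha, map_one, map_ofNat, map_neg, map_ofNat]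
      exact hr2
    have e2 : (2 * a + 1) ^ 2 = algebraMap ℚ L (p ^ 2 - n * t ^ 2) + algebraMap ℚ L (2 * p * t) * x := by
      rw [hpt]
      simp only [map_sub, map_mul, map_pow, map_natCast, map_ofNat]
      linear_combination (algebraMap ℚ L t) ^ 2 * hx
    have e3 : algebraMap ℚ L (p ^ 2 - n * t ^ 2 + 3) + algebraMap ℚ L (2 * p * t) * x = 0 := by
      rw [map_add, map_ofNat]
      linear_combination e1 - e2
    have li := Pool.Agent.R441.CN.linInd hn0 hx
    rw [LinearIndependent.pair_iff] at li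
    obtain ⟨f1, f2⟩ := li (p ^ 2 - n * t ^ 2 + 3) (2 * p * t) (by
      rw [Algebra.smul_def, Algebra.smul_def, mul_one]; exact e3)
    have f3 : p = 0 ∨ t = 0 := by
      rcases mul_eq_zero.1 f2 with h | h
      · left; linarith
      · right; exact h
    rcases f3 with h | h
    · subst h
      have f4 : (n : ℚ) * t ^ 2 = ((3 : ℤ) : ℚ) := by push_cast; linear_combination -f1
      obtain ⟨m, hm⟩ := int_of_sq' hn t 3 f4
      rw [hm] at f4
      have f5 : (n : ℤ) * m ^ 2 = 3 := by exact_mod_cast f4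
      have f6 : m ≠ 0 := by rintro rfl; norm_num at f5
      have f7 : 1 ≤ m ^ 2 := by
        have := sq_pos_of_ne_zero (R := ℤ) f6
        omega
      have : (5 : ℤ) ≤ n := by exact_mod_cast h5
      nlinarith
    · subst h
      nlinarith [sq_nonneg p]
  -- b is not rational
  have hb1 : b1 ≠ 0 := by
    rintro rfl
    apply hnc
    have hq0 : q ≠ 0 := by
      rintro rfl
      apply hb
      have : b0 = 0 := by
        have : b0 ^ 2 = 0 := by linear_combination hN
        exact pow_eq_zero_iff (two_ne_zero) |>.1 this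
      rw [hb01, this]; simp
    refine ⟨algebraMap ℚ L' (b0 / q), ?_⟩
    rw [← map_pow, hb01, map_zero, zero_mul, add_zero]
    congr 1
    have : b0 ^ 2 = q ^ 3 := by linear_combination hN
    field_simp
    linear_combination -b0 * this
  -- action on B
  have actB1 : ∀ f : W ≃ₐ[L] W, f ω = ω → f B = B := by
    intro f hf
    have h2 : f (2 : W) = 2 := map_ofNat f 2
    have hfX : f X = X := f.commutes x
    have hr : ∀ p : ℚ, f (algebraMap ℚ W p) = algebraMap ℚ W p := by
      intro p; rw [← hratL, f.commutes]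
    rw [hBe, map_add, map_mul, map_mul, map_add, map_mul, map_one, h2, hf, hfX, hr, hr]
  have actB2 : ∀ f : W ≃ₐ[L] W, f ω = ω ^ 2 →
      f B = algebraMap ℚ W b0 - algebraMap ℚ W b1 * ((2 * ω + 1) * X) := by
    intro f hf
    have h2 : f (2 : W) = 2 := map_ofNat f 2
    have hfX : f X = X := f.commutes x
    have hr : ∀ p : ℚ, f (algebraMap ℚ W p) = algebraMap ℚ W p := by
      intro p; rw [← hratL, f.commutes]
    rw [hBe, map_add, map_mul, map_mul, map_add, map_mul, map_one, h2, hf, hfX, hr, hr]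
    linear_combination (2 * algebraMap ℚ W b1 * X) * hω
  -- existence of an element of order three
  have hs : ∃ s : W ≃ₐ[L] W, s ω = ω ∧ s α ≠ α := by
    by_contra hcon
    push Not at hcon
    have hQ : ∀ σ : W ≃ₐ[ℚ] W, σ X = X → σ ω = ω → σ α = α := by
      intro σ h1 h2
      obtain ⟨τ, hτ⟩ := liftL σ h1
      rw [← hτ]
      exact hcon τ (by rw [hτ]; exact h2)
    apply hnc
    have hfixY : ∀ f : W ≃ₐ[L'] W, f ω = ω → f X = X := by
      intro f hf
      have h1 : f ((2 * ω + 1) * X) = (2 * ω + 1) * X := by rw [← hxy]; exact f.commutes y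
      have h2 : f (2 : W) = 2 := map_ofNat f 2
      rw [map_mul, map_add, map_mul, map_one, h2, hf] at h1
      refine mul_left_cancel₀ ?_ h1
      intro h0; rw [h0] at hr2; norm_num at hr2
    have hfixα : ∀ f : W ≃ₐ[L'] W, f ω = ω → f α = α := by
      intro f hf
      obtain ⟨σ, hσ⟩ := downL' f
      rw [← hσ]
      exact hQ σ (by rw [hσ]; exact hfixY f hf) (by rw [hσ]; exact hf)
    have hroot : ∀ f : W ≃ₐ[L'] W, (f α / α) ^ 3 = 1 := by
      intro f
      rw [div_pow, ← map_pow, hα, hB, f.commutes, div_self hB0]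
    -- find α'
    obtain ⟨α', hα'3, hα'⟩ : ∃ α' : W, α' ^ 3 = B ∧ ∀ f : W ≃ₐ[L'] W, f α' = α' := by
      by_cases hall : ∀ f : W ≃ₐ[L'] W, f ω = ω
      · exact ⟨α, hα, fun f => hfixα f (hall f)⟩
      · push Not at hall
        obtain ⟨τ, hτ⟩ := hall
        have hτω : τ ω = ω ^ 2 := (actωL' τ).resolve_left hτ
        obtain ⟨k, hk, hk1, hk2⟩ : ∃ k : W, (k = 1 ∨ k = ω ∨ k = ω ^ 2) ∧ τ (k * α) = k * α ∧ k ^ 3 = 1 := by
          have hτα : τ α = (τ α / α) * α := by field_simp
          rcases cube_one hω (hroot τ) with h | h | h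
          · refine ⟨1, Or.inl rfl, ?_, one_pow 3⟩
            rw [one_mul, hτα, h, one_mul]
          · -- τ α = ω α ; k = ω² : τ(ω² α) = ω^4 ω α = ω^5 α = ω² α
            refine ⟨ω ^ 2, Or.inr (Or.inr rfl), ?_, by linear_combination (ω ^ 3 + 1) * hω3⟩
            rw [map_mul, map_pow, hτω, hτα, h]
            linear_combination (ω ^ 2 * α) * hω3
          · refine ⟨ω, Or.inr (Or.inl rfl), ?_, hω3⟩
            rw [map_mul, hτω, hτα, h]
            linear_combination (ω * α) * hω3
        have hkfix : ∀ f : W ≃ₐ[L'] W, f ω = ω → f (k * α) = k * α := by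
          intro f hf
          rw [map_mul, hfixα f hf]
          congr 1
          rcases hk with h | h | h
          · rw [h, map_one]
          · rw [h, hf]
          · rw [h, map_pow, hf]
        refine ⟨k * α, by rw [mul_pow, hk2, one_mul, hα], ?_⟩
        intro f
        rcases actωL' f with hf | hf
        · exact hkfix f hf
        · have h1 : (τ⁻¹ * f) ω = ω := by
            show τ⁻¹ (f ω) = ω
            rw [hf, ← hτω]
            have : (τ⁻¹ * τ) ω = ω := by rw [inv_mul_cancel]; rfl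
            exact this
          have h2 := hkfix _ h1
          have h3 : τ (τ⁻¹ (f (k * α))) = τ (k * α) := congrArg τ h2
          have h4 : τ (τ⁻¹ (f (k * α))) = f (k * α) := by
            have : (τ * τ⁻¹) (f (k * α)) = f (k * α) := by rw [mul_inv_cancel]; rfl
            exact this
          rw [← h4, h3, hk1]
    obtain ⟨c, hc⟩ := (IsGalois.mem_range_algebraMap_iff_fixed (F := L') (E := W) α').2 hα'
    refine ⟨c, ?_⟩
    apply (algebraMap L' W).injective
    rw [map_pow, hc, hα'3]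
  obtain ⟨s, hsω, hsα⟩ := hs
  -- s is of order three
  obtain ⟨ζ, hζe⟩ : ∃ ζ, ζ = s α / α := ⟨_, rfl⟩
  have hsα' : s α = ζ * α := by rw [hζe]; field_simp
  have hζ3 : ζ ^ 3 = 1 := by
    rw [hζe, div_pow, ← map_pow, hα, actB1 s hsω, div_self hB0]
  have hζ1 : ζ ≠ 1 := by
    rintro rfl
    rw [one_mul] at hsα'
    exact hsα hsα'
  have hζ := prim_of hω hζ3 hζ1
  have hcube : ∀ z : W, z ^ 3 = 1 → ∀ f : W ≃ₐ[L] W, f ω = ω → f z = z := by
    intro z hz f hf
    rcases cube_one hω hz with h | h | h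
    · rw [h, map_one]
    · rw [h, hf]
    · rw [h, map_pow, hf]
  have hsζ : s ζ = ζ := hcube ζ hζ3 s hsω
  have hs_order : orderOf s = 3 := by
    haveI : Fact (Nat.Prime 3) := ⟨by norm_num⟩
    apply orderOf_eq_prime
    · apply hgenL
      · show s (s (s ω)) = ω
        rw [hsω, hsω, hsω]
      · show s (s (s α)) = α
        rw [hsα', map_mul, hsζ, hsα', map_mul, map_mul, hsζ, hsα']
        linear_combination α * hζ3
    · rintro rfl
      exact hsα rfl
  -- order of the group
  obtain ⟨Q, hQ⟩ : ∃ Q, Q = algebraMap ℚ W q := ⟨_, rfl⟩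
  obtain ⟨B', hB'⟩ : ∃ B', B' = algebraMap ℚ W b0 - algebraMap ℚ W b1 * ((2 * ω + 1) * X) := ⟨_, rfl⟩
  rw [← hQ, ← hB'] at hBB
  rw [← hB'] at actB2
  obtain ⟨τ, hτ⟩ := hωL
  have hτω : τ ω = ω ^ 2 := (actωL τ).resolve_left hτ
  have hB'0 : B' ≠ 0 := by
    rw [← actB2 τ hτω, Ne, map_eq_zero]; exact hB0
  have hQ0 : Q ≠ 0 := by
    rintro rfl
    rw [zero_pow (by norm_num)] at hBB
    exact mul_ne_zero hB0 hB'0 hBB
  have hr0 : (2 * ω + 1) ≠ 0 := by
    intro h0; rw [h0] at hr2; norm_num at hr2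
  have hBne : B ≠ B' := by
    intro h
    have : 2 * (algebraMap ℚ W b1 * ((2 * ω + 1) * X)) = 0 := by
      rw [hB', hBe] at h
      linear_combination h
    have h2 : (2 : W) ≠ 0 := two_ne_zero
    exact mul_ne_zero h2 (mul_ne_zero (by rw [Ne, map_eq_zero]; exact hb1) (mul_ne_zero hr0 hX0)) this
  have hfix : ∀ f : W ≃ₐ[L] W, f α = α → f = 1 := by
    intro f hf
    apply hgenL f _ hf
    rcases actωL f with h | h
    · exact h
    · exfalso
      have h1 := actB2 f h
      rw [← hα, map_pow, hf, hα] at h1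
      exact hBne h1
  have hprod : ∀ f : W ≃ₐ[L] W, f ω = ω ^ 2 → (f α * α / Q) ^ 3 = 1 := by
    intro f hf
    rw [div_pow, mul_pow, ← map_pow, hα, actB2 f hf, mul_comm, hBB, div_self (pow_ne_zero 3 hQ0)]
  have hle : Nat.card (W ≃ₐ[L] W) ≤ 6 := by
    classical
    let T : Finset W := {α, ω * α, ω ^ 2 * α, Q / α, ω * (Q / α), ω ^ 2 * (Q / α)}
    have hT : ∀ f : W ≃ₐ[L] W, f α ∈ T := by
      intro f
      simp only [T, Finset.mem_insert, Finset.mem_singleton]
      rcases actωL f with h | h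
      · have h1 : (f α / α) ^ 3 = 1 := by rw [div_pow, ← map_pow, hα, actB1 f h, div_self hB0]
        have h2 : f α = (f α / α) * α := by field_simp
        rcases cube_one hω h1 with h3 | h3 | h3
        · left; rw [h2, h3, one_mul]
        · right; left; rw [h2, h3]
        · right; right; left; rw [h2, h3]
      · have h1 := hprod f h
        have h2 : f α = (f α * α / Q) * (Q / α) := by field_simp
        rcases cube_one hω h1 with h3 | h3 | h3
        · right; right; right; left; rw [h2, h3, one_mul]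
        · right; right; right; right; left; rw [h2, h3]
        · right; right; right; right; right; rw [h2, h3]
    have hinj : Function.Injective (fun f : W ≃ₐ[L] W => (⟨f α, hT f⟩ : T)) := by
      intro f g hfg
      have h1 : f α = g α := congrArg Subtype.val hfg
      have h2 : (g⁻¹ * f) α = α := by
        show g⁻¹ (f α) = α
        rw [h1]
        have : (g⁻¹ * g) α = α := by rw [inv_mul_cancel]; rfl
        exact this
      have h3 := hfix _ h2
      exact (inv_mul_eq_one.1 h3).symm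
    calc Nat.card (W ≃ₐ[L] W) ≤ Nat.card T := Nat.card_le_card_of_injective _ hinj
      _ = T.card := by simp
      _ ≤ 6 := Finset.card_le_six
  have hτpow : ∀ k : ℕ, (τ ^ (2 * k + 1)) ω = ω ^ 2 := by
    intro k
    induction k with
    | zero => simpa using hτω
    | succ k ih =>
      have e1 : τ ^ (2 * (k + 1) + 1) = τ ^ (2 * k + 1) * τ * τ := by
        rw [mul_assoc, ← pow_two, ← pow_add]; congr 1
      rw [e1]
      show (τ ^ (2 * k + 1)) (τ (τ ω)) = ω ^ 2
      have e2 : τ (τ ω) = ω := by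
        rw [hτω, map_pow, hτω]
        linear_combination ω * hω3
      rw [e2, ih]
  have h2dvd : 2 ∣ Nat.card (W ≃ₐ[L] W) := by
    refine dvd_trans ?_ (orderOf_dvd_natCard τ)
    by_contra hodd
    obtain ⟨k, hk⟩ := Nat.odd_iff.2 (Nat.two_dvd_ne_zero.1 hodd)
    have h1 := hτpow k
    rw [← hk, pow_orderOf_eq_one] at h1
    exact hω2 h1.symm
  have h3dvd : 3 ∣ Nat.card (W ≃ₐ[L] W) := by
    rw [← hs_order]; exact orderOf_dvd_natCard s
  have hcard : Nat.card (W ≃ₐ[L] W) = 6 := by
    have : 0 < Nat.card (W ≃ₐ[L] W) := Nat.card_pos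
    omega
  -- the involution
  obtain ⟨ρ, hρ⟩ : ∃ ρ, ρ = τ ^ 3 := ⟨_, rfl⟩
  have hρω : ρ ω = ω ^ 2 := by rw [hρ]; exact hτpow 1
  have hρ_order : orderOf ρ = 2 := by
    apply orderOf_eq_prime
    · rw [hρ, ← pow_mul]
      have := pow_card_eq_one' (x := τ)
      rwa [hcard] at this
    · rintro rfl
      exact hω2 hρω.symm
  have hρζ : ρ ζ = ζ ^ 2 := by
    rcases omega_conj hω hζ with h | h
    · rw [h, hρω]
    · rw [h, map_pow, hρω]
  have hext : ∀ f g : W ≃ₐ[L] W, f ω = g ω → f α = g α → f = g := by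
    intro f g h1 h2
    have e : ∀ z, (g⁻¹ * g) z = z := fun z => by rw [inv_mul_cancel]; rfl
    have h3 : g⁻¹ * f = 1 := by
      apply hgenL
      · show g⁻¹ (f ω) = ω
        rw [h1]; exact e ω
      · show g⁻¹ (f α) = α
        rw [h2]; exact e α
    exact (inv_mul_eq_one.1 h3).symm
  have hcomm : s * ρ = ρ * s := by
    apply hext
    · show s (ρ ω) = ρ (s ω)
      rw [hρω, hsω, hρω, map_pow, hsω]
    · show s (ρ α) = ρ (s α)
      rw [hsα', map_mul, hρζ]
      have h1 := hcube _ (hprod ρ hρω) s hsω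
      have hsQ : s Q = Q := by rw [hQ, ← hratL, s.commutes]
      rw [map_div₀, map_mul, hsQ, hsα'] at h1
      have h2 : s (ρ α) * (ζ * α) = ρ α * α := (div_left_inj' hQ0).1 h1
      have h3 : s (ρ α) * ζ = ρ α := by
        apply mul_right_cancel₀ hα0
        rw [mul_assoc]; exact h2
      linear_combination (ζ ^ 2) * h3 - (s (ρ α)) * hζ3
  refine h94 hL hcard hs_order hρ_order (fun z => ?_) hα0 hsα' hsζ hζ
    (unit_pm' hL hn0 hn h5 hx) ?_
  · have := DFunLike.congr_fun hcomm z
    exact this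
  · intro w σ hσ hσ3
    by_contra hσ1
    have hσω : σ ω = ω := by
      rcases actωL σ with h | h
      · exact h
      · exfalso
        have h1 : (σ ^ 3) ω = ω := by rw [hσ3]; rfl
        have h2 : (σ ^ 3) ω = σ (σ (σ ω)) := rfl
        rw [h2, h, map_pow, h, ← pow_mul, map_pow, h, ← pow_mul] at h1
        apply hω2
        linear_combination h1 - (ω ^ 5 + ω ^ 2) * hω3
    have hσα : σ α ≠ α := fun h => hσ1 (hgenL σ hσω h)
    have h3 : (σ α / α) ^ 3 = 1 := by rw [div_pow, ← map_pow, hα, actB1 σ hσω, div_self hB0]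
    have h1 : σ α / α ≠ 1 := by
      intro h
      rw [div_eq_one_iff_eq hα0] at h
      exact hσα h
    have hpr := prim_of hω h3 h1
    have hY : σ (algebraMap L' W y) = algebraMap L' W y := by
      have h2 : σ (2 : W) = 2 := map_ofNat σ 2
      have hfX : σ X = X := σ.commutes x
      rw [hxy, map_mul, map_add, map_mul, map_one, h2, hσω, hfX]
    refine no_inertia (L' := L') (w := w) hb (hv _) (hp _) hα hpr hσ (by field_simp)
      (hcube _ h3 σ hσω) ?_
    intro z
    obtain ⟨p, t, rfl⟩ := hcoord z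
    have hr : ∀ p : ℚ, σ (algebraMap ℚ W p) = algebraMap ℚ W p := by
      intro p; rw [← hratL, σ.commutes]
    rw [map_add, map_mul, hratL', hratL', map_add, map_mul, hr, hr, hY]

end

end Pool.Agent.K4H1.EXT.S
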